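import Mathlib

set_option autoImplicit false

/-! Averaging over residue classes: a choice which is at least as good as the mean for a sum over the
surviving points and the surviving pairs. -/

open Finset

namespace Pool.Agent.TH915.UC

open scoped Classical

/-- the proportion of residue classes modulo `p` which contain neither `k` nor `l` -/
noncomputable def wp (p k l : ℕ) : ℝ := if k ≡ l [MOD p] then 1 - 1 / (p : ℝ) else 1 - 2 / (p : ℝ)

theorem card_ne (p k : ℕ) (hp : 0 < p) :
    (((range p).filter (fun c => ¬ k ≡ c [MOD p])).card : ℝ) = (p : ℝ) - 1 := by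
  have h1 : (range p).filter (fun c => ¬ k ≡ c [MOD p]) = (range p).erase (k % p) := by
    ext c
    rw [mem_filter, mem_erase, mem_range]
    constructor
    · rintro ⟨h1, h2⟩
      refine ⟨?_, h1⟩
      rintro rfl
      exact h2 (Nat.mod_modEq k p).symm
    · rintro ⟨h1, h2⟩
      refine ⟨h2, fun h3 => h1 ?_⟩
      have h4 : k % p = c % p := h3
      rw [h4, Nat.mod_eq_of_lt h2]
  rw [h1, card_erase_of_mem (mem_range.2 (Nat.mod_lt _ hp)), card_range, Nat.cast_sub hp]
  simp

theorem card_ne2 (p k l : ℕ) (hp : 0 < p) :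
    (((range p).filter (fun c => ¬ k ≡ c [MOD p] ∧ ¬ l ≡ c [MOD p])).card : ℝ) = p * wp p k l := by
  have hp' : (0 : ℝ) < p := by exact_mod_cast hp
  unfold wp
  split_ifs with h
  · have h1 : (range p).filter (fun c => ¬ k ≡ c [MOD p] ∧ ¬ l ≡ c [MOD p]) =
        (range p).filter (fun c => ¬ k ≡ c [MOD p]) := by
      apply filter_congr
      intro c _
      constructor
      · exact fun h1 => h1.1
      · exact fun h1 => ⟨h1, fun h2 => h1 (h.trans h2)⟩
    rw [h1, card_ne p k hp]
    field_simp
  · have h1 : (range p).filter (fun c => ¬ k ≡ c [MOD p] ∧ ¬ l ≡ c [MOD p]) =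
        ((range p).erase (k % p)).erase (l % p) := by
      ext c
      rw [mem_filter, mem_erase, mem_erase, mem_range]
      constructor
      · rintro ⟨h1, h2, h3⟩
        refine ⟨?_, ?_, h1⟩
        · rintro rfl
          exact h3 (Nat.mod_modEq l p).symm
        · rintro rfl
          exact h2 (Nat.mod_modEq k p).symm
      · rintro ⟨h1, h2, h3⟩
        refine ⟨h3, fun h4 => h2 ?_, fun h4 => h1 ?_⟩
        · have h5 : k % p = c % p := h4
          rw [h5, Nat.mod_eq_of_lt h3]
        · have h5 : l % p = c % p := h4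
          rw [h5, Nat.mod_eq_of_lt h3]
    have h2 : l % p ∈ (range p).erase (k % p) := by
      rw [mem_erase]
      exact ⟨fun h3 => h h3.symm, mem_range.2 (Nat.mod_lt _ hp)⟩
    rw [h1, card_erase_of_mem h2, card_erase_of_mem (mem_range.2 (Nat.mod_lt _ hp)), card_range]
    have h3 : 2 ≤ p := by
      by_contra h4
      have : p = 1 := by omega
      subst this
      exact h (Nat.modEq_one)
    rw [Nat.sub_sub, Nat.cast_sub h3]
    field_simp
    push_cast
    ring

/-- the value of a choice of classes -/
noncomputable def val (P R : Finset ℕ) (α : ℕ → ℝ) (β : ℕ → ℕ → ℝ) (b : ℕ → ℕ) : ℝ :=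
  ∑ k ∈ R, (if ∀ p ∈ P, ¬ k ≡ b p [MOD p] then α k else 0) +
    ∑ k ∈ R, ∑ l ∈ R, (if (∀ p ∈ P, ¬ k ≡ b p [MOD p]) ∧ ∀ p ∈ P, ¬ l ≡ b p [MOD p] then β k l else 0)

/-- the mean value over all the choices of classes -/
noncomputable def mean (P R : Finset ℕ) (α : ℕ → ℝ) (β : ℕ → ℕ → ℝ) : ℝ :=
  ∑ k ∈ R, α k * ∏ p ∈ P, (1 - 1 / (p : ℝ)) + ∑ k ∈ R, ∑ l ∈ R, β k l * ∏ p ∈ P, wp p k l

/-- averaging over residue classes -/
theorem avg_gen (P : Finset ℕ) (hP : ∀ p ∈ P, 0 < p) (R : Finset ℕ) :
    ∀ (α : ℕ → ℝ) (β : ℕ → ℕ → ℝ), ∃ b : ℕ → ℕ, (∀ p ∈ P, b p < p) ∧ mean P R α β ≤ val P R α β b := by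
  induction P using Finset.induction_on with
  | empty =>
    intro α β
    refine ⟨fun _ => 0, by simp, ?_⟩
    unfold mean val
    simp
  | insert p P hpP ih =>
    intro α β
    have hp : 0 < p := hP p (mem_insert_self _ _)
    have hp' : (0 : ℝ) < p := by exact_mod_cast hp
    obtain ⟨b, hb, hbv⟩ := ih (fun q hq => hP q (mem_insert_of_mem hq))
      (fun k => α k * (1 - 1 / (p : ℝ))) (fun k l => β k l * wp p k l)
    have hmean : mean (insert p P) R α β =
        mean P R (fun k => α k * (1 - 1 / (p : ℝ))) (fun k l => β k l * wp p k l) := by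
      unfold mean
      simp only [prod_insert hpP, mul_assoc]
    -- the sum over the classes modulo `p`
    have hsum : ∑ c ∈ range p, val (insert p P) R α β (Function.update b p c) =
        p * val P R (fun k => α k * (1 - 1 / (p : ℝ))) (fun k l => β k l * wp p k l) b := by
      have hsurv : ∀ (k c : ℕ), (∀ q ∈ insert p P, ¬ k ≡ Function.update b p c q [MOD q]) ↔
          ((∀ q ∈ P, ¬ k ≡ b q [MOD q]) ∧ ¬ k ≡ c [MOD p]) := by
        intro k c
        rw [forall_mem_insert, Function.update_self]
        constructor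
        · rintro ⟨h1, h2⟩
          refine ⟨fun q hq => ?_, h1⟩
          have h3 : q ≠ p := fun h => hpP (h ▸ hq)
          have := h2 q hq
          rwa [Function.update_of_ne h3] at this
        · rintro ⟨h1, h2⟩
          refine ⟨h2, fun q hq => ?_⟩
          have h3 : q ≠ p := fun h => hpP (h ▸ hq)
          rw [Function.update_of_ne h3]
          exact h1 q hq
      unfold val
      rw [sum_add_distrib, mul_add]
      congr 1
      · rw [sum_comm, mul_sum]
        apply sum_congr rfl
        intro k _
        by_cases hk : ∀ q ∈ P, ¬ k ≡ b q [MOD q]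
        · rw [if_pos hk]
          have h1 : ∀ c ∈ range p, (if ∀ q ∈ insert p P, ¬ k ≡ Function.update b p c q [MOD q] then α k else 0) =
              if ¬ k ≡ c [MOD p] then α k else 0 := by
            intro c _
            simp only [hsurv k c]
            by_cases h2 : k ≡ c [MOD p]
            · rw [if_neg (fun h => h.2 h2), if_neg (not_not.2 h2)]
            · rw [if_pos ⟨hk, h2⟩, if_pos h2]
          rw [sum_congr rfl h1, ← sum_filter, sum_const, nsmul_eq_mul, card_ne p k hp]
          field_simp
        · rw [if_neg hk, mul_zero]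
          apply sum_eq_zero
          intro c _
          rw [if_neg]
          rw [hsurv k c]
          exact fun h => hk h.1
      · rw [sum_comm, mul_sum]
        apply sum_congr rfl
        intro k _
        rw [sum_comm, mul_sum]
        apply sum_congr rfl
        intro l _
        by_cases hk : (∀ q ∈ P, ¬ k ≡ b q [MOD q]) ∧ ∀ q ∈ P, ¬ l ≡ b q [MOD q]
        · rw [if_pos hk]
          have h1 : ∀ c ∈ range p, (if (∀ q ∈ insert p P, ¬ k ≡ Function.update b p c q [MOD q]) ∧
              (∀ q ∈ insert p P, ¬ l ≡ Function.update b p c q [MOD q]) then β k l else 0) =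
              if ¬ k ≡ c [MOD p] ∧ ¬ l ≡ c [MOD p] then β k l else 0 := by
            intro c _
            simp only [hsurv k c, hsurv l c]
            by_cases h2 : ¬ k ≡ c [MOD p] ∧ ¬ l ≡ c [MOD p]
            · rw [if_pos ⟨⟨hk.1, h2.1⟩, hk.2, h2.2⟩, if_pos h2]
            · rw [if_neg (fun h => h2 ⟨h.1.2, h.2.2⟩), if_neg h2]
          rw [sum_congr rfl h1, ← sum_filter, sum_const, nsmul_eq_mul, card_ne2 p k l hp]
          ring
        · rw [if_neg hk, mul_zero]
          apply sum_eq_zero
          intro c _
          rw [if_neg]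
          rw [hsurv k c, hsurv l c]
          exact fun h => hk ⟨h.1.1, h.2.1⟩
    obtain ⟨c, hc, hcv⟩ : ∃ c ∈ range p, mean (insert p P) R α β ≤ val (insert p P) R α β (Function.update b p c) := by
      by_contra hcon
      push Not at hcon
      have hne : (range p).Nonempty := ⟨0, mem_range.2 hp⟩
      have h1 := sum_lt_sum_of_nonempty hne hcon
      rw [sum_const, card_range, nsmul_eq_mul, hsum, hmean] at h1
      have := lt_of_mul_lt_mul_left h1 hp'.le
      linarith
    refine ⟨Function.update b p c, ?_, hcv⟩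
    intro q hq
    rcases mem_insert.1 hq with rfl | hq
    · rw [Function.update_self]; exact mem_range.1 hc
    · have : q ≠ p := fun h => hpP (h ▸ hq)
      rw [Function.update_of_ne this]
      exact hb q hq

end Pool.Agent.TH915.UC
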