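import Pool.Agent.Helper923.PPS.BT

set_option autoImplicit false

/-! Brun-Titchmarsh inequality for all moduli (with a numerical constant). -/

open Finset Nat

namespace Pool.Agent.TH915.UC

open Pool.Agent.Helper923.PPS

/-- one prime is removed -/
theorem sum_inv_step (s : Finset ℕ) (p : ℕ) (hp : p.Prime) (R : ℕ) :
    (1 - 1 / (p : ℝ)) * (∑ n ∈ (Finset.Icc 1 R).filter (fun n => ∀ q ∈ s, ¬ q ∣ n), (n : ℝ)⁻¹) ≤
      ∑ n ∈ (Finset.Icc 1 R).filter (fun n => ∀ q ∈ insert p s, ¬ q ∣ n), (n : ℝ)⁻¹ := by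
  classical
  set A := (Finset.Icc 1 R).filter (fun n => ∀ q ∈ s, ¬ q ∣ n) with hA
  have h1 := Finset.sum_filter_add_sum_filter_not A (fun n => ¬ p ∣ n) (fun n : ℕ => (n : ℝ)⁻¹)
  have h2 : A.filter (fun n => ¬ p ∣ n) = (Finset.Icc 1 R).filter (fun n => ∀ q ∈ insert p s, ¬ q ∣ n) := by
    ext n
    rw [Finset.mem_filter, hA, Finset.mem_filter, Finset.mem_filter, Finset.forall_mem_insert]
    tauto
  have h3 : ∑ n ∈ A.filter (fun n => ¬ ¬ p ∣ n), (n : ℝ)⁻¹ ≤ (1 / (p : ℝ)) * ∑ n ∈ A, (n : ℝ)⁻¹ := by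
    have h4 : A.filter (fun n => ¬ ¬ p ∣ n) ⊆ A.image (fun m => p * m) := by
      intro n hn
      rw [Finset.mem_filter, not_not] at hn
      obtain ⟨hn1, m, rfl⟩ := hn
      rw [hA, Finset.mem_filter, Finset.mem_Icc] at hn1
      rw [Finset.mem_image]
      refine ⟨m, ?_, rfl⟩
      rw [hA, Finset.mem_filter, Finset.mem_Icc]
      have hm : 0 < m := by
        rcases Nat.eq_zero_or_pos m with h | h
        · subst h; omega
        · exact h
      exact ⟨⟨hm, le_trans (Nat.le_mul_of_pos_left m hp.pos) hn1.1.2⟩,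
        fun q hq hd => hn1.2 q hq (hd.mul_left p)⟩
    refine (Finset.sum_le_sum_of_subset_of_nonneg h4 (fun _ _ _ => by positivity)).trans ?_
    rw [Finset.sum_image (by
      intro x _ y _ hxy
      exact Nat.eq_of_mul_eq_mul_left hp.pos hxy), Finset.mul_sum]
    apply le_of_eq
    apply Finset.sum_congr rfl
    intro m _
    push_cast
    rw [mul_inv, one_div]
  rw [← h2]
  linarith

theorem sum_inv_coprime (q : ℕ) (hq : 0 < q) (R : ℕ) :
    ((q.totient : ℝ) / q) * (∑ n ∈ Finset.Icc 1 R, (n : ℝ)⁻¹) ≤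
      ∑ n ∈ (Finset.Icc 1 R).filter (fun n => Nat.Coprime n q), (n : ℝ)⁻¹ := by
  classical
  have key : ∀ s : Finset ℕ, (∀ p ∈ s, p.Prime) → (∏ p ∈ s, (1 - 1 / (p : ℝ))) * (∑ n ∈ Finset.Icc 1 R, (n : ℝ)⁻¹) ≤
      ∑ n ∈ (Finset.Icc 1 R).filter (fun n => ∀ q ∈ s, ¬ q ∣ n), (n : ℝ)⁻¹ := by
    intro s
    induction s using Finset.induction_on with
    | empty => intro _; simp
    | insert p s hps ih =>
      intro hs
      have hp := hs p (Finset.mem_insert_self _ _)
      have ih' := ih (fun r hr => hs r (Finset.mem_insert_of_mem hr))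
      refine le_trans ?_ (sum_inv_step s p hp R)
      rw [Finset.prod_insert hps, mul_assoc]
      apply mul_le_mul_of_nonneg_left ih'
      have h1 : (2 : ℝ) ≤ p := by exact_mod_cast hp.two_le
      have : 1 / (p : ℝ) ≤ 1 := by
        rw [div_le_one (by linarith)]; linarith
      linarith
  have h1 := key q.primeFactors (fun p hp => Nat.prime_of_mem_primeFactors hp)
  have h2 : (q.totient : ℝ) / q = ∏ p ∈ q.primeFactors, (1 - 1 / (p : ℝ)) := by
    have h3 := Nat.totient_eq_mul_prod_factors q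
    have h4 : ((q.totient : ℚ) : ℝ) = ((q * ∏ p ∈ q.primeFactors, (1 - (p : ℚ)⁻¹) : ℚ) : ℝ) := by rw [h3]
    push_cast at h4
    have hq' : (q : ℝ) ≠ 0 := by positivity
    rw [h4]
    field_simp
  rw [h2]
  refine h1.trans (le_of_eq ?_)
  apply Finset.sum_congr _ fun _ _ => rfl
  apply Finset.filter_congr
  intro n hn
  rw [Finset.mem_Icc] at hn
  constructor
  · intro h
    rw [Nat.coprime_iff_gcd_eq_one]
    by_contra hne
    obtain ⟨p, hp, hpd⟩ := Nat.exists_prime_and_dvd hne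
    exact h p (Nat.mem_primeFactors.2 ⟨hp, hpd.trans (Nat.gcd_dvd_right _ _), hq.ne'⟩)
      (hpd.trans (Nat.gcd_dvd_left _ _))
  · intro h p hp hd
    have h3 := Nat.dvd_gcd hd (Nat.dvd_of_mem_primeFactors hp)
    rw [h] at h3
    exact (Nat.prime_of_mem_primeFactors hp).one_lt.ne' (Nat.dvd_one.1 h3)

theorem selS_ge_gen {a q N R : ℕ} (hq : 0 < q) :
    ((q.totient : ℝ) / q) * Real.log ((R : ℝ) + 1) / 2 ≤ selS (apSieve a q N R) R := by
  have h1 := selS_ge a q N R
  have h2 := sum_inv_le_two_mul q R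
  have h3 := sum_inv_coprime q hq R
  have h4 := log_add_one_le_harmonic R
  rw [harmonic_eq_sum_Icc] at h4
  push_cast at h4
  have h5 : 0 ≤ (q.totient : ℝ) / q := by positivity
  have h6 := mul_le_mul_of_nonneg_left h4 h5
  linarith

theorem bt_aux_gen {a q N R : ℕ} (hq : 0 < q) (hR : 1 ≤ R) :
    (((Finset.range N).filter (fun k => (a + k * q).Prime)).card : ℝ) ≤
      2 * ((q : ℝ) / q.totient) * N / Real.log ((R : ℝ) + 1) + (R : ℝ) ^ 4 + (R + 1) := by
  have hR' : (1 : ℝ) ≤ R := by exact_mod_cast hR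
  have h1 := sifted_ge (a := a) (q := q) (N := N) (R := R) hq
  have h2 := siftedSum_le_selberg (apSieve a q N R) (R : ℝ) hR' 1 zero_le_one
    (fun d hd => apSieve_rem hq hd)
  have h3 := selS_ge_gen (a := a) (N := N) (R := R) hq
  have hlog : 0 < Real.log ((R : ℝ) + 1) := Real.log_pos (by linarith)
  have hφ : (0 : ℝ) < q.totient := by exact_mod_cast Nat.totient_pos.2 hq
  have hq' : (0 : ℝ) < q := by exact_mod_cast hq
  have h4 : (apSieve a q N R).totalMass / selS (apSieve a q N R) R ≤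
      2 * ((q : ℝ) / q.totient) * N / Real.log ((R : ℝ) + 1) := by
    change (N : ℝ) / _ ≤ _
    have : (N : ℝ) / selS (apSieve a q N R) R ≤ (N : ℝ) / (((q.totient : ℝ) / q) * Real.log ((R : ℝ) + 1) / 2) := by
      apply div_le_div_of_nonneg_left (by positivity) (by positivity) h3
    refine this.trans (le_of_eq ?_)
    field_simp
  have h5 : (∑ d ∈ (divisors (apSieve a q N R).prodPrimes).filter (fun d : ℕ => (d : ℝ) ≤ R),
      ((apSieve a q N R).nu d)⁻¹) ≤ (R : ℝ) ^ 2 := by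
    have h6 : (divisors (apSieve a q N R).prodPrimes).filter (fun d : ℕ => (d : ℝ) ≤ R) ⊆
        Finset.Icc 1 R := by
      intro d hd
      rw [Finset.mem_filter, Nat.mem_divisors] at hd
      rw [Finset.mem_Icc]
      refine ⟨Nat.pos_of_ne_zero (ne_zero_of_dvd_ne_zero hd.1.2 hd.1.1), by exact_mod_cast hd.2⟩
    calc (∑ d ∈ (divisors (apSieve a q N R).prodPrimes).filter (fun d : ℕ => (d : ℝ) ≤ R),
          ((apSieve a q N R).nu d)⁻¹)
        = ∑ d ∈ (divisors (apSieve a q N R).prodPrimes).filter (fun d : ℕ => (d : ℝ) ≤ R),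
          (d : ℝ) := by
          apply Finset.sum_congr rfl
          intro d _
          change ((d : ℝ)⁻¹)⁻¹ = d
          rw [inv_inv]
      _ ≤ ∑ d ∈ Finset.Icc 1 R, (d : ℝ) :=
          Finset.sum_le_sum_of_subset_of_nonneg h6 (fun _ _ _ => by positivity)
      _ ≤ ∑ d ∈ Finset.Icc 1 R, (R : ℝ) := by
          apply Finset.sum_le_sum
          intro d hd
          exact_mod_cast (Finset.mem_Icc.mp hd).2
      _ = (R : ℝ) ^ 2 := by simp; ring
  have h7 : 0 ≤ (∑ d ∈ (divisors (apSieve a q N R).prodPrimes).filter (fun d : ℕ => (d : ℝ) ≤ R),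
      ((apSieve a q N R).nu d)⁻¹) := by
    apply Finset.sum_nonneg
    intro d _
    change 0 ≤ ((d : ℝ)⁻¹)⁻¹
    positivity
  have h8 : (∑ d ∈ (divisors (apSieve a q N R).prodPrimes).filter (fun d : ℕ => (d : ℝ) ≤ R),
      ((apSieve a q N R).nu d)⁻¹) ^ 2 ≤ (R : ℝ) ^ 4 := by
    calc _ ≤ ((R : ℝ) ^ 2) ^ 2 := by gcongr
      _ = (R : ℝ) ^ 4 := by ring
  linarith

/-- Brun-Titchmarsh inequality, all moduli -/
theorem bt_gen (a q N : ℕ) (hq : 0 < q) (hN : 2 ≤ N) :
    (((Finset.range N).filter (fun k => (a + k * q).Prime)).card : ℝ) ≤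
      22 * ((q : ℝ) / q.totient) * N / Real.log N := by
  have hN' : (2 : ℝ) ≤ N := by exact_mod_cast hN
  have hN0 : (0 : ℝ) < N := by linarith
  have hlogN : 0 < Real.log N := Real.log_pos (by linarith)
  have hφ : (0 : ℝ) < q.totient := by exact_mod_cast Nat.totient_pos.2 hq
  have hq' : (0 : ℝ) < q := by exact_mod_cast hq
  have hr1 : 1 ≤ (q : ℝ) / q.totient := by
    rw [le_div_iff₀ hφ, one_mul]
    exact_mod_cast Nat.totient_le q
  set r := (q : ℝ) / q.totient with hr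
  set x : ℝ := (N : ℝ) ^ ((1 : ℝ) / 8) with hx
  have hx1 : 1 ≤ x := Real.one_le_rpow (by linarith) (by norm_num)
  have hR : 1 ≤ ⌊x⌋₊ := Nat.floor_pos.mpr hx1
  have h := bt_aux_gen (a := a) (N := N) (R := ⌊x⌋₊) hq hR
  rw [← hr] at h
  have hfl : (⌊x⌋₊ : ℝ) ≤ x := Nat.floor_le (by linarith)
  have hfl2 : x < (⌊x⌋₊ : ℝ) + 1 := Nat.lt_floor_add_one x
  have hlogx : Real.log x = Real.log N / 8 := by
    rw [hx, Real.log_rpow hN0]; ring
  have hlog2 : Real.log N / 8 ≤ Real.log ((⌊x⌋₊ : ℝ) + 1) := by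
    rw [← hlogx]
    exact Real.log_le_log (by linarith) hfl2.le
  have hx4 : x ^ 4 = Real.sqrt N := by
    rw [hx, ← Real.rpow_natCast, ← Real.rpow_mul hN0.le, Real.sqrt_eq_rpow]
    norm_num
  have hsq : 0 < Real.sqrt N := Real.sqrt_pos.mpr hN0
  have hsq2 : Real.sqrt N * Real.sqrt N = N := Real.mul_self_sqrt hN0.le
  have hlogsq : Real.log N ≤ 2 * Real.sqrt N := by
    have h1 : Real.log (Real.sqrt N) ≤ Real.sqrt N - 1 := Real.log_le_sub_one_of_pos hsq
    rw [Real.log_sqrt hN0.le] at h1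
    linarith
  have h1 : 2 * r * (N : ℝ) / Real.log ((⌊x⌋₊ : ℝ) + 1) ≤ 16 * r * N / Real.log N := by
    have : 2 * r * (N : ℝ) / Real.log ((⌊x⌋₊ : ℝ) + 1) ≤ 2 * r * (N : ℝ) / (Real.log N / 8) := by
      apply div_le_div_of_nonneg_left (by positivity) (by positivity) hlog2
    refine this.trans (le_of_eq ?_)
    field_simp
    norm_num
  have h2 : (⌊x⌋₊ : ℝ) ^ 4 ≤ Real.sqrt N := by
    rw [← hx4]; gcongr
  have h3 : (⌊x⌋₊ : ℝ) + 1 ≤ 2 * Real.sqrt N := by
    have : x ≤ x ^ 4 := by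
      nlinarith [mul_nonneg (sub_nonneg.mpr hx1) (by positivity : (0:ℝ) ≤ x * (x^2 + x + 1))]
    rw [hx4] at this
    linarith
  have h4 : 3 * Real.sqrt N ≤ 6 * N / Real.log N := by
    rw [le_div_iff₀ hlogN]
    nlinarith
  have h6 : 6 * (N : ℝ) / Real.log N ≤ 6 * r * N / Real.log N := by
    apply div_le_div_of_nonneg_right _ hlogN.le
    nlinarith
  have h5 : 22 * r * (N : ℝ) / Real.log N = 16 * r * N / Real.log N + 6 * r * N / Real.log N := by ring
  linarith

end Pool.Agent.TH915.UC
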