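import Mathlib

set_option autoImplicit false

/-! Combinatorics: thinning a set with few close pairs; long runs without close neighbours. -/

open Finset

namespace Pool.Agent.TH915.UC

open scoped Classical

/-- ordered pairs of elements of `A` in the relation `r` -/
noncomputable def prs (r : ℕ → ℕ → Prop) (A : Finset ℕ) : Finset (ℕ × ℕ) := (A ×ˢ A).filter (fun x => r x.1 x.2)

/-- one element can be removed without raising the density of pairs -/
theorem remove_one (r : ℕ → ℕ → Prop) (hr : ∀ x, ¬ r x x) (A : Finset ℕ) (hA : A.Nonempty) :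
    ∃ a ∈ A, (A.card : ℝ) * ((prs r (A.erase a)).card : ℝ) ≤ ((A.card : ℝ) - 2) * ((prs r A).card : ℝ) := by
  -- the pairs with the element `a`
  set d : ℕ → ℕ := fun a => ((prs r A).filter (fun x => x.1 = a ∨ x.2 = a)).card with hd
  have h1 : ∑ a ∈ A, (d a : ℝ) = 2 * ((prs r A).card : ℝ) := by
    have h2 : ∀ a ∈ A, (d a : ℝ) = ∑ x ∈ prs r A, ((if x.1 = a then (1 : ℝ) else 0) + (if x.2 = a then 1 else 0)) := by
      intro a _
      simp only [hd]
      rw [Finset.card_filter]
      push_cast
      apply Finset.sum_congr rfl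
      intro x hx
      have hne : x.1 ≠ x.2 := by
        intro h
        unfold prs at hx
        rw [mem_filter] at hx
        apply hr x.1
        have := hx.2
        rwa [← h] at this
      by_cases c1 : x.1 = a
      · have c2 : x.2 ≠ a := fun h => hne (c1.trans h.symm)
        simp [c1, c2]
      · by_cases c2 : x.2 = a <;> simp [c1, c2]
    rw [Finset.sum_congr rfl h2, Finset.sum_comm]
    have h3 : ∀ x ∈ prs r A, ∑ a ∈ A, ((if x.1 = a then (1 : ℝ) else 0) + (if x.2 = a then 1 else 0)) = 2 := by
      intro x hx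
      unfold prs at hx
      rw [mem_filter, mem_product] at hx
      rw [Finset.sum_add_distrib, Finset.sum_ite_eq, Finset.sum_ite_eq, if_pos hx.1.1, if_pos hx.1.2]
      norm_num
    rw [Finset.sum_congr rfl h3, Finset.sum_const, nsmul_eq_mul]
    ring
  obtain ⟨a, ha, hav⟩ : ∃ a ∈ A, 2 * ((prs r A).card : ℝ) ≤ A.card * d a := by
    by_contra hcon
    push Not at hcon
    have h4 : ∑ a ∈ A, ((A.card : ℝ) * d a) < ∑ a ∈ A, 2 * ((prs r A).card : ℝ) :=
      Finset.sum_lt_sum_of_nonempty hA hcon
    rw [← Finset.mul_sum, h1, Finset.sum_const, nsmul_eq_mul] at h4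
    exact lt_irrefl _ h4
  refine ⟨a, ha, ?_⟩
  have h5 : ((prs r (A.erase a)).card : ℝ) = ((prs r A).card : ℝ) - d a := by
    have h6 : prs r (A.erase a) = (prs r A).filter (fun x => ¬ (x.1 = a ∨ x.2 = a)) := by
      ext x
      unfold prs
      rw [mem_filter, mem_product, mem_erase, mem_erase, mem_filter, mem_filter, mem_product]
      tauto
    have h7 := Finset.card_filter_add_card_filter_not (s := prs r A) (fun x => x.1 = a ∨ x.2 = a)
    rw [h6]
    have h8 : ((prs r A).card : ℝ) = (d a : ℝ) +
        (((prs r A).filter (fun x => ¬ (x.1 = a ∨ x.2 = a))).card : ℝ) := by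
      rw [← h7]; push_cast; rfl
    linarith
  rw [h5]
  nlinarith

/-- thinning -/
theorem thin (r : ℕ → ℕ → Prop) (hr : ∀ x, ¬ r x x) (A : Finset ℕ) (m : ℕ) (hm : 1 ≤ m) (hmA : m ≤ A.card) :
    ∃ B ⊆ A, B.card = m ∧ ((prs r B).card : ℝ) ≤ (m : ℝ) ^ 2 / (A.card : ℝ) ^ 2 * ((prs r A).card : ℝ) := by
  -- induction on the number of removed elements
  obtain ⟨k, hk⟩ : ∃ k, A.card = m + k := ⟨A.card - m, by omega⟩
  have hm1 : (1 : ℝ) ≤ m := by exact_mod_cast hm
  induction k generalizing A with
  | zero =>
    refine ⟨A, Finset.Subset.refl _, by omega, ?_⟩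
    have : (A.card : ℝ) = m := by rw [hk]; simp
    rw [this, div_self (by positivity), one_mul]
  | succ k ih =>
    have hne : A.Nonempty := by
      rw [← Finset.card_pos]; omega
    obtain ⟨a, ha, hav⟩ := remove_one r hr A hne
    have hcard : (A.erase a).card = m + k := by
      rw [Finset.card_erase_of_mem ha]; omega
    obtain ⟨B, hBA, hBm, hB⟩ := ih (A.erase a) (by omega) hcard
    refine ⟨B, hBA.trans (Finset.erase_subset _ _), hBm, hB.trans ?_⟩
    have hc1 : ((A.erase a).card : ℝ) = (A.card : ℝ) - 1 := by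
      rw [hcard, hk]; push_cast; ring
    have hAc : (2 : ℝ) ≤ A.card := by exact_mod_cast (by omega : 2 ≤ A.card)
    rw [hc1]
    have hp0 : (0 : ℝ) ≤ ((prs r A).card : ℝ) := Nat.cast_nonneg _
    have h1 : ((prs r (A.erase a)).card : ℝ) ≤ ((A.card : ℝ) - 2) / A.card * ((prs r A).card : ℝ) := by
      rw [div_mul_eq_mul_div, le_div_iff₀ (by linarith)]
      linarith
    have hpos : (0 : ℝ) < (A.card : ℝ) - 1 := by linarith
    have hA0 : (0 : ℝ) < (A.card : ℝ) := by linarith
    calc (m : ℝ) ^ 2 / ((A.card : ℝ) - 1) ^ 2 * ((prs r (A.erase a)).card : ℝ) ≤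
        (m : ℝ) ^ 2 / ((A.card : ℝ) - 1) ^ 2 * (((A.card : ℝ) - 2) / A.card * ((prs r A).card : ℝ)) := by gcongr
      _ = ((m : ℝ) ^ 2 * ((prs r A).card : ℝ)) * (((A.card : ℝ) - 2) / (((A.card : ℝ) - 1) ^ 2 * A.card)) := by
          field_simp
      _ ≤ ((m : ℝ) ^ 2 * ((prs r A).card : ℝ)) * (1 / (A.card : ℝ) ^ 2) := by
          apply mul_le_mul_of_nonneg_left _ (by positivity)
          rw [div_le_div_iff₀ (by positivity) (by positivity)]
          nlinarith [mul_pos hA0 hA0]
      _ = _ := by field_simp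

/-- blocks: a sequence of indices with few bad ones contains `k` consecutive good ones -/
theorem good_block (bad : ℕ → Prop) (j0 N k P : ℕ) (hk : 1 ≤ k) (hN : k * (P + 1) ≤ N)
    (hbad : ((range N).filter (fun i => bad (j0 + i))).card ≤ P) :
    ∃ i, i + k ≤ N ∧ ∀ l < k, ¬ bad (j0 + i + l) := by
  by_contra hcon
  push Not at hcon
  -- every block contains a bad index
  have h1 : ∀ s : Fin (P + 1), ∃ l, l < k ∧ bad (j0 + s * k + l) := by
    intro s
    have hs := s.2
    have h2 : (s : ℕ) * k + k ≤ N := by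
      calc (s : ℕ) * k + k = k * (s + 1) := by ring
        _ ≤ k * (P + 1) := Nat.mul_le_mul_left k (by omega)
        _ ≤ N := hN
    exact hcon (s * k) h2
  choose l hl hlb using h1
  have h3 : P + 1 ≤ ((range N).filter (fun i => bad (j0 + i))).card := by
    have h4 : (univ : Finset (Fin (P + 1))).image (fun s : Fin (P + 1) => (s : ℕ) * k + l s) ⊆
        (range N).filter (fun i => bad (j0 + i)) := by
      intro i hi
      rw [mem_image] at hi
      obtain ⟨s, _, rfl⟩ := hi
      rw [mem_filter, mem_range]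
      refine ⟨?_, ?_⟩
      · have := hl s
        have hs := s.2
        have h5 : (s : ℕ) * k + k ≤ N := by
          calc (s : ℕ) * k + k = k * (s + 1) := by ring
            _ ≤ k * (P + 1) := Nat.mul_le_mul_left k (by omega)
            _ ≤ N := hN
        omega
      · rw [← add_assoc]; exact hlb s
    have h5 : ((univ : Finset (Fin (P + 1))).image (fun s : Fin (P + 1) => (s : ℕ) * k + l s)).card = P + 1 := by
      rw [Finset.card_image_of_injective, Finset.card_univ, Fintype.card_fin]
      intro s t hst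
      simp only at hst
      have h6 : ((s : ℕ) * k + l s) / k = s := by
        rw [Nat.add_comm, Nat.add_mul_div_right _ _ (by omega), Nat.div_eq_of_lt (hl s), zero_add]
      have h7 : ((t : ℕ) * k + l t) / k = t := by
        rw [Nat.add_comm, Nat.add_mul_div_right _ _ (by omega), Nat.div_eq_of_lt (hl t), zero_add]
      apply Fin.ext
      rw [← h6, ← h7, hst]
    rw [← h5]
    exact card_le_card h4
  omega

end Pool.Agent.TH915.UC
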