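import Pool.Agent.TH915.UC.Surv2
import Pool.Agent.TH915.UC.Comb
import Pool.Agent.H312R2.RG.COV

set_option autoImplicit false
set_option maxHeartbeats 4000000

/-! The covering at the record scale with many well spaced surviving primes of a residue class. -/

open Finset Filter

namespace Pool.Agent.TH915.UC

open Pool.Agent.H378R2
open Pool.Agent.H312R2.RG (cov_ev)
open Pool.Agent.H256R2.SC (ff)

open scoped Classical

/-- close pairs -/
def clo (g : ℝ) (x y : ℕ) : Prop := x < y ∧ (y : ℝ) ≤ x + g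

/-- growth facts, in terms of `A = log log X` -/
theorem cov_ev2 (c : ℝ) (hc : 0 < c) : ∃ A₀ : ℝ, ∀ A : ℝ, A₀ ≤ A → (Real.log A) ^ 2 ≤ c * A := by
  have hlog := Real.tendsto_log_atTop
  have h := (Real.isLittleO_pow_log_id_atTop (n := 2)).def hc
  obtain ⟨A₀, hA⟩ := eventually_atTop.1 (h.and (eventually_ge_atTop (1 : ℝ)))
  refine ⟨A₀, fun A h0 => ?_⟩
  obtain ⟨h1, h2⟩ := hA A h0
  rw [Real.norm_of_nonneg (sq_nonneg _), id, Real.norm_of_nonneg (by linarith)] at h1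
  exact h1

theorem covU : ∃ C : ℝ, 1 ≤ C ∧ ∀ c₃ : ℝ, 0 < c₃ → c₃ ≤ 1 → ∃ c₂ : ℝ, 0 < c₂ ∧ ∀ q : ℕ, 0 < q → ∀ a : ℕ, a.Coprime q →
    ∃ X0 : ℝ, ∀ X : ℝ, X0 ≤ X → ∀ (ps : ℕ) (S : Finset ℕ), GoodP (max q 4) ps → GoodS X S →
    ∀ D : ℝ, 1 ≤ D → D ≤ (Real.log (yy X : ℝ)) ^ 3 →
    ∃ (a0 : ℕ) (Sv Q : Finset ℕ),
      (∀ s : ℕ, s ∈ Sv ↔ (s : ℝ) ≤ c₂ * ff X ∧ (a0 + s).Coprime (WW X S ps)) ∧
      (∀ t ∈ Q, t ∈ Sv ∧ t.Prime ∧ yy X < t ∧ t ≡ a [MOD q]) ∧
      (Sv.card : ℝ) ≤ c₃ * Real.log X ∧ c₂ * Real.log X ≤ 8 * C * q.totient * Q.card ∧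
      ((prs (clo (c₂ * ff X / (2 * D))) Q).card : ℝ) ≤ C * (Q.card : ℝ) ^ 2 / D ∧
      ∀ p : ℕ, p.Prime → p ∣ q → p ∣ a0 ∧ p ∣ WW X S ps := by
  obtain ⟨C, hC, hus⟩ := usurv
  refine ⟨C, hC, fun c₃ hc₃ hc₃1 => ?_⟩
  have hC0 : 0 < C := by linarith
  -- constants
  set c₂ : ℝ := min (1 / 8000) (c₃ / (8 * C)) with hc₂
  have hc₂0 : 0 < c₂ := lt_min (by norm_num) (by positivity)
  have hc₂1 : c₂ ≤ 1 / 8000 := min_le_left _ _
  have hc₂2 : c₂ ≤ c₃ / (8 * C) := min_le_right _ _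
  refine ⟨c₂, hc₂0, fun q hq a haq => ?_⟩
  have hφ : (0 : ℝ) < q.totient := by exact_mod_cast Nat.totient_pos.2 hq
  obtain ⟨y₀, hrs⟩ := hus q hq a haq
  obtain ⟨A₀, hev⟩ := cov_ev c₂ hc₂0
  obtain ⟨A₁, hev2⟩ := cov_ev2 (5 * c₂ / q.totient) (by positivity)
  set Am := max (max A₀ (max A₁ (2 * q + 2))) (Real.log (2000 * ((y₀ : ℝ) + 2))) with hAm
  refine ⟨Real.exp (Real.exp Am), ?_⟩
  intro X hX ps S hps hS Dd hD1 hD2
  have hX0 : 0 < X := (Real.exp_pos _).trans_le hX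
  set T := Real.log X with hT
  have hT' : Real.exp Am ≤ T := by
    rw [hT, ← Real.log_exp (Real.exp _)]; exact Real.log_le_log (Real.exp_pos _) hX
  have hT0 : 0 < T := (Real.exp_pos _).trans_le hT'
  set A := Real.log T with hA
  have hA' : Am ≤ A := by
    rw [hA, ← Real.log_exp Am]; exact Real.log_le_log (Real.exp_pos _) hT'
  have hA0' : A₀ ≤ A := ((le_max_left _ _).trans (le_max_left _ _)).trans hA'
  have hA1' : A₁ ≤ A := (((le_max_left _ _).trans (le_max_right _ _)).trans (le_max_left _ _)).trans hA'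
  have hAq : 2 * (q : ℝ) + 2 ≤ A := (((le_max_right _ _).trans (le_max_right _ _)).trans (le_max_left _ _)).trans hA'
  obtain ⟨a1, a2, a3, a4, a5, a6, a7, a8, a9⟩ := hev A hA0'
  have b1 := hev2 A hA1'
  have hTe : T = Real.exp A := by rw [hA, Real.exp_log hT0]
  set B := Real.log A with hB
  set D := Real.log B with hD
  have hff : ff X = T * A ^ 2 * D / B ^ 2 := by
    unfold ff
    rfl
  have hA0 : 0 < A := by linarith
  have hB0 : 0 < B := by linarith
  have hDpos : 0 < D := by linarith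
  -- y
  set y := yy X with hy
  have hyT : (y : ℝ) ≤ T / 1000 := Nat.floor_le (by positivity)
  have hyT2 : T / 2000 ≤ y := by
    have h1 : T / 1000 < (y : ℝ) + 1 := Nat.lt_floor_add_one _
    have h2 : 1 ≤ T / 2000 := by
      rw [le_div_iff₀ (by norm_num), hTe]; linarith
    linarith [show T / 1000 = T / 2000 + T / 2000 by ring]
  have hy0T : (y₀ : ℝ) + 2 ≤ T / 2000 := by
    have h1 := (le_max_right (max A₀ (max A₁ (2 * (q : ℝ) + 2))) (Real.log (2000 * ((y₀ : ℝ) + 2)))).trans hA'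
    have h2 : 2000 * ((y₀ : ℝ) + 2) ≤ T := by
      rw [hTe, ← Real.log_le_iff_le_exp (by positivity)]
      exact h1
    linarith
  have hyy0 : y₀ ≤ y := by
    have : (y₀ : ℝ) ≤ y := by linarith
    exact_mod_cast this
  have hy0 : (0 : ℝ) < y := by
    have : (0 : ℝ) ≤ y₀ := Nat.cast_nonneg _
    linarith
  have hly1 : Real.log y ≤ A := by
    rw [hA]; apply Real.log_le_log hy0; linarith
  have hly2 : A / 2 ≤ Real.log y := by
    have h1 : Real.log (T / 2000) ≤ Real.log y := Real.log_le_log (by positivity) hyT2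
    rw [Real.log_div hT0.ne' (by norm_num)] at h1
    linarith
  have hly0 : 0 < Real.log y := by linarith
  have hl2y1 : Real.log (Real.log y) ≤ B := Real.log_le_log hly0 hly1
  have hl2y2 : B / 2 ≤ Real.log (Real.log y) := by
    have h1 : Real.log (A / 2) ≤ Real.log (Real.log y) := Real.log_le_log (by positivity) hly2
    rw [Real.log_div hA0.ne' (by norm_num)] at h1
    linarith
  have hl2y0 : 0 < Real.log (Real.log y) := by linarith
  have hl3y1 : Real.log (Real.log (Real.log y)) ≤ D := Real.log_le_log hl2y0 hl2y1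
  have hl3y2 : D / 2 ≤ Real.log (Real.log (Real.log y)) := by
    have h1 : Real.log (B / 2) ≤ Real.log (Real.log (Real.log y)) := Real.log_le_log (by positivity) hl2y2
    rw [Real.log_div hB0.ne' (by norm_num)] at h1
    linarith
  -- H
  set H : ℕ := ⌊c₂ * ff X⌋₊ with hH
  have hff0 : 0 ≤ c₂ * ff X := by rw [hff]; positivity
  have hHle : (H : ℝ) ≤ c₂ * ff X := Nat.floor_le hff0
  have hT1 : T ≤ c₂ * ff X := by
    rw [hff, mul_div_assoc', le_div_iff₀ (by positivity)]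
    have h1 : T * B ^ 2 ≤ T * (c₂ * A ^ 2) := by gcongr
    have h2 : T * (c₂ * A ^ 2) ≤ T * (c₂ * A ^ 2) * D := by
      have : 0 ≤ T * (c₂ * A ^ 2) := by positivity
      nlinarith
    linarith [show c₂ * (T * A ^ 2 * D) = T * (c₂ * A ^ 2) * D by ring]
  have hHge : c₂ * ff X / 2 ≤ H := by
    have h1 : c₂ * ff X < (H : ℝ) + 1 := Nat.lt_floor_add_one _
    have h2 : 2 ≤ T := by rw [hTe]; linarith
    linarith
  have hH1 : 100 * (q.totient : ℝ) * (y * Real.log y) ≤ H := by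
    refine le_trans ?_ hHge
    rw [hff]
    have h1 : 100 * (q.totient : ℝ) * (y * Real.log y) ≤ 100 * q.totient * ((T / 1000) * A) := by gcongr
    refine h1.trans ?_
    rw [le_div_iff₀ (by norm_num : (0 : ℝ) < 2), mul_div_assoc', le_div_iff₀ (by positivity)]
    have h2 : (q.totient : ℝ) * B ^ 2 ≤ 5 * c₂ * A := by
      have h3 : (q.totient : ℝ) * B ^ 2 ≤ q.totient * (5 * c₂ / q.totient * A) := by gcongr
      have h4 : (q.totient : ℝ) * (5 * c₂ / q.totient * A) = 5 * c₂ * A := by field_simp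
      linarith
    calc 100 * (q.totient : ℝ) * ((T / 1000) * A) * 2 * B ^ 2 = (1 / 5) * T * A * (q.totient * B ^ 2) := by ring
      _ ≤ (1 / 5) * T * A * (5 * c₂ * A) := by gcongr
      _ = c₂ * (T * A ^ 2 * 1) := by ring
      _ ≤ c₂ * (T * A ^ 2 * D) := by gcongr
  have hHy : (H : ℝ) ≤ y * (Real.log y) ^ 2 := by
    refine hHle.trans ?_
    have h1 : T / 2000 * (A / 2) ^ 2 ≤ y * (Real.log y) ^ 2 := by gcongr
    refine le_trans ?_ h1
    rw [hff, mul_div_assoc', div_le_iff₀ (by positivity)]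
    have h2 : D ≤ B ^ 2 := by nlinarith
    have h3 : c₂ * (T * A ^ 2 * D) ≤ 1 / 8000 * (T * A ^ 2 * B ^ 2) := by gcongr
    linarith [show T / 2000 * (A / 2) ^ 2 * B ^ 2 = 1 / 8000 * (T * A ^ 2 * B ^ 2) by ring]
  -- S
  have hlX : Real.log (Real.log X) = A := rfl
  have hz2' : (A ^ 3 : ℝ) ≤ z2 X := by
    have h1 : Real.log (Real.log X) ^ 3 ≤ (z2 X : ℝ) := Nat.le_ceil _
    rwa [hlX] at h1
  have hA3 : A ≤ A ^ 3 := by
    calc A = A ^ 1 := (pow_one _).symm
      _ ≤ A ^ 3 := pow_le_pow_right₀ a1 (by norm_num)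
  have hq1 : (1 : ℝ) ≤ q := by exact_mod_cast hq
  have hz2 : 2 ≤ z2 X := by
    have : (2 : ℝ) ≤ (z2 X : ℝ) := by linarith
    exact_mod_cast this
  have hqz2 : q ≤ z2 X := by
    have : (q : ℝ) ≤ (z2 X : ℝ) := by linarith
    exact_mod_cast this
  have hS' : ∀ q ∈ S, q.Prime ∧ 2 < q := fun q hq => ⟨(hS.1 q hq).1, by have := (hS.1 q hq).2.1; omega⟩
  have hSsum : ∑ q ∈ S, (1 : ℝ) / q ≤ 12 / (Real.log y) ^ 2 := by
    refine hS.2.trans ?_
    rw [hlX]
    have h5 : (Real.log y) ^ 2 ≤ A ^ 2 := by gcongr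
    rw [div_le_div_iff₀ (by positivity) (by positivity)]
    nlinarith [sq_nonneg A]
  have hps2 : ps = 1 ∨ (ps.Prime ∧ 2 < ps) := by
    rcases hps with h | h
    · exact Or.inl h
    · refine Or.inr ⟨h.1, ?_⟩
      have := h.2
      have h2 := le_max_right q 4
      omega
  obtain ⟨b, hb0, hb1, Sv, Q, hSv, hQ, hc1, hc2, hc3⟩ := hrs y hyy0 S ps hS' hSsum hps2 H hH1 hHy Dd hD1 hD2
  -- membership in PW
  have hPW : ∀ p, p ∈ PW X S ps ↔ (p.Prime ∧ p ≤ y ∧ p ∉ S ∧ p ≠ ps) := by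
    intro p
    unfold PW
    rw [mem_filter, mem_Icc]
    constructor
    · rintro ⟨⟨_, h1⟩, h2, h3, h4⟩; exact ⟨h2, h1, h3, h4⟩
    · rintro ⟨h2, h1, h3, h4⟩; exact ⟨⟨h2.pos, h1⟩, h2, h3, h4⟩
  -- CRT
  obtain ⟨a0, ha0⟩ := Nat.chineseRemainderOfFinset (fun p => p - b p) (fun p => p) (PW X S ps)
    (fun p hp => ((hPW p).1 hp).1.ne_zero)
    (fun p hp q hq hpq => (Nat.coprime_primes ((hPW p).1 (by simpa using hp)).1
      ((hPW q).1 (by simpa using hq)).1).2 hpq)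
  have hkey : ∀ p ∈ PW X S ps, ∀ s : ℕ, p ∣ a0 + s ↔ s ≡ b p [MOD p] := by
    intro p hp s
    obtain ⟨hpp, hpy, hpS, hpps⟩ := (hPW p).1 hp
    have hbp := hb1 p hpp hpy hpS hpps
    have h1 := ha0 p hp
    have h2 : a0 + b p ≡ 0 [MOD p] := by
      have h3 := h1.add_right (b p)
      have h4 : p - b p + b p = p := by omega
      rw [h4] at h3
      exact h3.trans (by rw [Nat.modEq_zero_iff_dvd])
    constructor
    · intro hd
      have h3 : a0 + s ≡ a0 + b p [MOD p] := ((Nat.modEq_zero_iff_dvd).2 hd).trans h2.symm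
      exact Nat.ModEq.add_left_cancel' a0 h3
    · intro hs
      have h3 : a0 + s ≡ a0 + b p [MOD p] := Nat.ModEq.add_left a0 hs
      exact (Nat.modEq_zero_iff_dvd).1 (h3.trans h2)
  have hcop : ∀ s : ℕ, (a0 + s).Coprime (WW X S ps) ↔ ∀ p ∈ PW X S ps, ¬ s ≡ b p [MOD p] := by
    intro s
    unfold WW
    rw [Nat.coprime_prod_right_iff]
    constructor
    · intro h p hp hs
      have h1 := h p hp
      rw [Nat.coprime_comm, Nat.Prime.coprime_iff_not_dvd ((hPW p).1 hp).1] at h1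
      exact h1 ((hkey p hp s).2 hs)
    · intro h p hp
      rw [Nat.coprime_comm, Nat.Prime.coprime_iff_not_dvd ((hPW p).1 hp).1]
      intro hd
      exact h p hp ((hkey p hp s).1 hd)
  refine ⟨a0, Sv, Q, ?_, ?_, ?_, ?_, ?_, ?_⟩
  · intro s
    rw [hSv, mem_filter, mem_range, hcop]
    have e1 : s < H + 1 ↔ (s : ℝ) ≤ c₂ * ff X := by
      rw [Nat.lt_succ_iff, hH, Nat.le_floor_iff hff0]
    rw [e1]
    constructor
    · rintro ⟨h1, h2⟩
      refine ⟨h1, fun p hp => ?_⟩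
      obtain ⟨g1, g2, g3, g4⟩ := (hPW p).1 hp
      exact h2 p g1 g2 g3 g4
    · rintro ⟨h1, h2⟩
      exact ⟨h1, fun p g1 g2 g3 g4 => h2 p ((hPW p).2 ⟨g1, g2, g3, g4⟩)⟩
  · intro t ht
    rw [hQ, mem_filter] at ht
    exact ht
  · refine hc1.trans ?_
    calc C * (H * (Real.log (Real.log y)) ^ 2 / ((Real.log y) ^ 2 * Real.log (Real.log (Real.log y))))
        ≤ C * ((c₂ * ff X) * B ^ 2 / ((A / 2) ^ 2 * (D / 2))) := by gcongr
      _ = 8 * C * c₂ * T := by
          rw [hff]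
          field_simp
          ring
      _ ≤ 8 * C * (c₃ / (8 * C)) * T := by gcongr
      _ = c₃ * T := by field_simp
  · have h1 : c₂ * T / 8 ≤ H * (Real.log (Real.log y)) ^ 2 / ((Real.log y) ^ 2 * Real.log (Real.log (Real.log y))) := by
      have hl3 : 0 < Real.log (Real.log (Real.log y)) := by linarith
      calc c₂ * T / 8 = (c₂ * ff X / 2) * (B / 2) ^ 2 / (A ^ 2 * D) := by
            rw [hff]
            field_simp
            ring
        _ ≤ H * (Real.log (Real.log y)) ^ 2 / ((Real.log y) ^ 2 * Real.log (Real.log (Real.log y))) := by gcongr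
    have h2 := h1.trans hc2
    linarith
  · refine le_trans ?_ hc3
    apply Nat.cast_le.2
    apply card_le_card
    intro x hx
    have hx1 : x ∈ Q ×ˢ Q ∧ clo (c₂ * ff X / (2 * Dd)) x.1 x.2 := by
      unfold prs at hx
      exact mem_filter.1 hx
    refine mem_filter.2 ⟨hx1.1, hx1.2.1, hx1.2.2.trans ?_⟩
    have hDd : 0 < Dd := by linarith
    have : c₂ * ff X / (2 * Dd) ≤ H / Dd := by
      calc c₂ * ff X / (2 * Dd) = (c₂ * ff X / 2) / Dd := by field_simp
        _ ≤ H / Dd := by gcongr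
    linarith
  · intro p hp hpq
    have hpq' : p ≤ q := Nat.le_of_dvd hq hpq
    have hqy : (q : ℝ) ≤ Real.log y := by linarith
    have hp1 : (p : ℝ) ≤ q := by exact_mod_cast hpq'
    have hqy2 : (p : ℝ) ≤ (Real.log y) ^ 2 := by
      have h1 : (1 : ℝ) ≤ Real.log y := by linarith
      nlinarith
    have hpy : p ≤ y := by
      have h1 : Real.log y ≤ y := by
        have := Real.log_le_sub_one_of_pos hy0
        linarith
      have : (p : ℝ) ≤ y := by linarith
      exact_mod_cast this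
    have hpS : p ∉ S := by
      intro h
      have := (hS.1 p h).2.1
      omega
    have hpps : p ≠ ps := by
      rintro rfl
      rcases hps with h | h
      · exact hp.one_lt.ne' h
      · have := h.2
        have h2 := le_max_left q 4
        omega
    have hmem := (hPW p).2 ⟨hp, hpy, hpS, hpps⟩
    constructor
    · have h1 := (hkey p hmem 0).2 (by rw [hb0 p hqy2])
      simpa using h1
    · unfold WW
      exact Finset.dvd_prod_of_mem (fun p => p) hmem

end Pool.Agent.TH915.UC
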