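import Pool.Agent.H312R2.RG.A
import Pool.Agent.H362R2.RQ.Pair2
import Pool.Agent.H378R2.Final

set_option autoImplicit false
set_option maxHeartbeats 4000000

/-! The sums with the repelling weights: total mass, primes, pairs of primes. -/

open Finset Filter
open scoped ContDiff

namespace Pool.Agent.TH915.UC

open Pool.Agent.H378R2
open Pool.Agent.H378R2.LSBV (QQ mem_QQ)
open Pool.Agent.H312R2.RG
open Pool.Agent.H398R2.PG (Et EE_sub_Et Et_res)
open Pool.Agent.H362R2.RQ (thn thn_nonneg thn_le thn_le_one ev_RR)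

/-- normalised density of the primes in the classes of the window -/
noncomputable def rh (X : ℝ) (W : ℕ) : ℝ := ((W : ℝ) / W.totient) / Real.log X

theorem one_mem_QQ (W ps : ℕ) (X : ℝ) (hL : 0 ≤ LL X) : 1 ∈ QQ W ps ⌊Real.exp (2 * LL X)⌋₊ := by
  rw [mem_QQ]
  refine ⟨⟨le_rfl, ?_⟩, squarefree_one, Nat.coprime_one_left _⟩
  apply Nat.le_floor
  push_cast
  exact Real.one_le_exp (by linarith)

theorem sum_nu (X : ℝ) (W a0 : ℕ) (G : ℤ → ℝ) :
    ∑ n ∈ Icc 1 ⌊3 * X⌋₊, nu X W a0 n * G n =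
      ∑ n ∈ (Icc 1 ⌊3 * X⌋₊).filter (fun n => n ≡ a0 [MOD W * 1]), Phi (n / X) * G n := by
  rw [Finset.sum_filter]
  refine Finset.sum_congr rfl fun n _ => ?_
  unfold nu
  rw [mul_one]
  split_ifs
  · rfl
  · rw [zero_mul]

theorem err_le_tot {K : ℕ} (X : ℝ) (W ps : ℕ) (err : ℕ → ℝ) (herr : ∀ q, 0 ≤ err q) (hL : 0 ≤ LL X) :
    err 1 ≤ tot K X W ps err := by
  unfold tot
  have h1 := Finset.single_le_sum (f := fun q => (q.divisors.card : ℝ) ^ (2 * K) * err q)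
    (fun q _ => mul_nonneg (by positivity) (herr q)) (one_mem_QQ W ps X hL)
  refine le_trans (le_of_eq ?_) h1
  simp

theorem classA_one {K : ℕ} (X : ℝ) (W ps a0 : ℕ) (t : Fin K → ℕ) (G : ℤ → ℝ) (M : ℝ) (err : ℕ → ℝ)
    (hL : 0 ≤ LL X) (h : ClassA X W ps t G M err) :
    ∑ n ∈ Icc 1 ⌊3 * X⌋₊, nu X W a0 n * G n ≤ M * (MPhi X * (1 / W)) + err 1 := by
  have h1 := h 1 a0 (one_mem_QQ W ps X hL) (fun p hp hd => absurd (Nat.dvd_one.1 hd) hp.one_lt.ne')
  rw [sum_nu]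
  have h2 := (abs_le.1 h1).2
  push_cast at h2
  linarith

/-- a single prime: the mean of `V` over the primes, as an instance of the second sum with one variable -/
theorem single_sum (h5 : SieveAsymp) : ∀ᶠ X : ℝ in atTop, ∀ (Z ps : ℕ) (S : Finset ℕ) (a0 t : ℕ),
    GoodP Z ps → GoodS X S → (t : ℝ) ≤ (Real.log X) ^ 2 → (a0 + t).Coprime (WW X S ps) →
    ∀ (V : ℤ → ℝ) (M' : ℝ) (e : ℕ → ℝ), 0 ≤ M' → (∀ a, 0 ≤ V a ∧ V a ≤ X ^ (1 / 100 : ℝ)) → (∀ q, 0 ≤ e q) →
    ClassB X (WW X S ps) ps (fun _ : Fin 2 => t) 0 V M' e →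
    M' * ((LPhi X * (1 / ((WW X S ps).totient : ℝ))) * (1 / 2)) -
      (e 1 + Real.exp (2 * LL X) * X ^ (1 / 100 : ℝ) *
          ((4 * (Real.log X) ^ 2) * Real.log (4 * X) + 4 * Real.sqrt X * Real.log (4 * X))) ≤
      ∑ n ∈ Icc 1 ⌊3 * X⌋₊, nu X (WW X S ps) a0 n * (V n * th (n + t)) := by
  classical
  have h14 : (0 : ℝ) < 1 / 4 := by norm_num
  have hS2 := S2_boundV h5 (K0 := 0) (fun _ : Fin 1 => hs (1 / 4)) (fun _ => 1 / 4)
    ({fun _ => 0} : Finset (Fin 1 → Fin 1)) (fun _ => hs_smooth _) (fun _ => hs_compact h14)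
    (fun _ x hx => hs_zero h14 (hx.le.trans (le_abs_self x))) (fun _ => ⟨h14.le, by norm_num⟩)
    (fun a _ => by simp; norm_num) (fun _ x => hs_abs_le _ _) (1 / 2) (by norm_num)
  filter_upwards [hS2, EE_facts 0, ev_RR, LL_tendsto.eventually_ge_atTop 1, eventually_ge_atTop (1 : ℝ)]
    with X h1 h2 hR hL hX1
  intro Z ps S a0 t hps hS ht hcop V M' e hM' hV he hB
  have hX0 : 0 < X := by linarith
  have hcl : ClassB X (WW X S ps) ps (fun _ : Fin (0 + 1) => t) 0 V M' (fun q => if q = 1 then e 1 else 0) := by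
    intro q b hq hb hpq
    have hq1 : q = 1 := by
      by_contra hne
      obtain ⟨p, hp, hpd⟩ := Nat.exists_prime_and_dvd hne
      obtain ⟨j, hj, _⟩ := hpq p hp hpd
      exact hj (Fin.ext (by omega))
    subst hq1
    beta_reduce
    rw [if_pos rfl]
    exact hB 1 b hq hb (fun p hp hd => absurd (Nat.dvd_one.1 hd) hp.one_lt.ne')
  have h3 := h1 Z ps S a0 (fun _ => t) hps hS (EE X S ps) (Finset.Subset.refl _) (EE_sub h2.2.2)
    (fun i j hij => absurd (Fin.ext (by omega)) hij) (fun _ => ht) (fun _ => hcop) V M' (X ^ (1 / 100 : ℝ))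
    (fun q => if q = 1 then e 1 else 0) hM' (by positivity) (fun a => by rw [abs_of_nonneg (hV a).1]; exact (hV a).2)
    (fun q => by split_ifs; exacts [he 1, le_rfl]) 0 hcl
  have hJJ : JJ (fun _ : Fin 1 => hs (1 / 4)) ({fun _ => 0} : Finset (Fin (0 + 1) → Fin 1)) 0 = 1 := by
    unfold JJ
    simp [hs_at_zero]
  have htot : tot (0 + 1) X (WW X S ps) ps (fun q => if q = 1 then e 1 else 0) = e 1 := by
    unfold tot
    rw [Finset.sum_eq_single_of_mem 1 (one_mem_QQ _ ps X (by linarith))]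
    · simp
    · intro q _ hq
      beta_reduce
      rw [if_neg hq, mul_zero]
  rw [hJJ, htot] at h3
  have h4 : ∑ n ∈ Icc 1 ⌊3 * X⌋₊, nu X (WW X S ps) a0 n *
        (sqw (EE X S ps) X (fun _ : Fin 1 => hs (1 / 4)) ({fun _ => 0} : Finset (Fin (0 + 1) → Fin 1))
          (fun _ => (n : ℤ) + t) ^ 2 * V n * th (n + t)) =
      ∑ n ∈ Icc 1 ⌊3 * X⌋₊, nu X (WW X S ps) a0 n * (V n * th (n + t)) := by
    refine Finset.sum_congr rfl fun n _ => ?_
    rcases (nu_nonneg X (WW X S ps) a0 n).eq_or_lt with h0 | h0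
    · rw [← h0, zero_mul, zero_mul]
    by_cases hp : (n + t).Prime
    · have hXn : X < n := by
        by_contra hle
        push Not at hle
        apply h0.ne'
        unfold nu
        rw [Phi_eq_zero_of_le (by positivity) (by rw [div_le_one (by linarith)]; exact hle), ite_self]
      have hRn : RR X < n + t := by
        have h3 : (RR X : ℝ) < n := hR.2.trans hXn
        have h4 : RR X < n := by exact_mod_cast h3
        omega
      have h5 : sqw (EE X S ps) X (fun _ : Fin 1 => hs (1 / 4)) ({fun _ => 0} : Finset (Fin (0 + 1) → Fin 1))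
          (fun _ => (n : ℤ) + t) = 1 := by
        unfold sqw
        rw [Finset.sum_singleton, Finset.prod_const]
        have h6 : ((n : ℤ) + t) = ((n + t : ℕ) : ℤ) := by push_cast; rfl
        rw [h6, VV_prime (EE X S ps) (RR X) hR.1 (LL X) _ (n + t) hp hRn]
        beta_reduce
        rw [hs_at_zero, one_pow]
      rw [h5]
      ring
    · have : th (n + t) = 0 := by
        unfold th
        rw [if_neg hp]
      rw [this, mul_zero, mul_zero, mul_zero, mul_zero]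
  rw [h4] at h3
  refine le_trans (le_of_eq ?_) h3
  rw [Finset.card_singleton]
  push_cast
  ring

/-- pairs of primes -/
theorem pair_sum (h5 : SieveAsymp) : ∀ᶠ X : ℝ in atTop, ∀ (Z ps : ℕ) (S : Finset ℕ) (a0 : ℕ) (t : Fin 2 → ℕ),
    GoodP Z ps → GoodS X S → Function.Injective t → (∀ j, (t j : ℝ) ≤ (Real.log X) ^ 2) →
    ∀ (V : ℤ → ℝ) (M : ℝ) (e : ℕ → ℝ), (∀ a, 0 ≤ V a) → 0 ≤ M → (∀ q, 0 ≤ e q) →
    ClassA X (WW X S ps) ps t V M e →
    ∑ n ∈ Icc 1 ⌊3 * X⌋₊, nu X (WW X S ps) a0 n * V n *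
        (if (n + t 0).Prime ∧ (n + t 1).Prime then 1 else 0) ≤
      M * ((MPhi X * (1 / (WW X S ps : ℝ))) * (1 / (LL X * BE (Et X S ps t)) ^ 2) * ((4 * gam) ^ 2 + 1)) +
        tot 2 X (WW X S ps) ps e := by
  classical
  have h14 : (0 : ℝ) < 1 / 4 := by norm_num
  have hS1 := S1_boundV h5 (K := 2) (fun _ : Fin 1 => hs (1 / 4)) (fun _ => 1 / 4)
    ({fun _ => 0} : Finset (Fin 2 → Fin 1)) (fun _ => hs_smooth _) (fun _ => hs_compact h14)
    (fun _ x hx => hs_zero h14 (hx.le.trans (le_abs_self x))) (fun _ => ⟨h14.le, by norm_num⟩)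
    (fun a _ => by simp; norm_num) (fun _ x => hs_abs_le _ _) 1 one_pos
  filter_upwards [hS1, Et2_sub (K := 2), ev_RR, eventually_ge_atTop (1 : ℝ)] with X h1 h2 hR hX1
  intro Z ps S a0 t hps hS htinj ht V M e hV hM he hA
  have hX0 : 0 < X := by linarith
  have h3 := h1 Z ps S a0 t hps hS (Et X S ps t) (EE_sub_Et X S ps t) (h2 ps S t ht)
    (Et_res (X := X) (S := S) (ps := ps) htinj) V M e hM he hA
  have hII : II (fun _ : Fin 1 => hs (1 / 4)) ({fun _ => 0} : Finset (Fin 2 → Fin 1)) = (4 * gam) ^ 2 := by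
    unfold II
    rw [Finset.sum_singleton, Finset.sum_singleton, Finset.prod_const, DD_hs_self h14, Finset.card_univ,
      Fintype.card_fin]
    ring
  rw [hII, Finset.card_singleton] at h3
  have h4 : ∀ n ∈ Icc 1 ⌊3 * X⌋₊, nu X (WW X S ps) a0 n * V n *
        (if (n + t 0).Prime ∧ (n + t 1).Prime then 1 else 0) ≤
      nu X (WW X S ps) a0 n * (sqw (Et X S ps t) X (fun _ : Fin 1 => hs (1 / 4))
        ({fun _ => 0} : Finset (Fin 2 → Fin 1)) (fun j => (n : ℤ) + t j) ^ 2 * V n) := by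
    intro n _
    have hnn := nu_nonneg X (WW X S ps) a0 n
    have hR0 : 0 ≤ nu X (WW X S ps) a0 n * (sqw (Et X S ps t) X (fun _ : Fin 1 => hs (1 / 4))
        ({fun _ => 0} : Finset (Fin 2 → Fin 1)) (fun j => (n : ℤ) + t j) ^ 2 * V n) :=
      mul_nonneg hnn (mul_nonneg (sq_nonneg _) (hV _))
    rcases hnn.eq_or_lt with h0 | h0
    · rw [← h0, zero_mul, zero_mul, zero_mul]
    by_cases hp : (n + t 0).Prime ∧ (n + t 1).Prime
    · have hXn : X < n := by
        by_contra hle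
        push Not at hle
        apply h0.ne'
        unfold nu
        rw [Phi_eq_zero_of_le (by positivity) (by rw [div_le_one (by linarith)]; exact hle), ite_self]
      have hRn : RR X < n := by
        have h3 : (RR X : ℝ) < n := hR.2.trans hXn
        exact_mod_cast h3
      have h5 : sqw (Et X S ps t) X (fun _ : Fin 1 => hs (1 / 4)) ({fun _ => 0} : Finset (Fin 2 → Fin 1))
          (fun j => (n : ℤ) + t j) = 1 := by
        unfold sqw
        rw [Finset.sum_singleton]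
        apply Finset.prod_eq_one
        intro j _
        have hpj : (n + t j).Prime := by
          fin_cases j
          · exact hp.1
          · exact hp.2
        have h6 : ((n : ℤ) + t j) = ((n + t j : ℕ) : ℤ) := by push_cast; rfl
        beta_reduce
        rw [h6, VV_prime (Et X S ps t) (RR X) hR.1 (LL X) _ (n + t j) hpj (by omega), hs_at_zero]
      rw [h5, if_pos hp]
      linarith
    · rw [if_neg hp, mul_zero]
      exact hR0
  refine (Finset.sum_le_sum h4).trans (h3.trans (le_of_eq ?_))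
  push_cast
  ring

/-- the sums, normalised -/
theorem sums (h5 : SieveAsymp) : ∃ C : ℝ, 1 ≤ C ∧ ∀ Z : ℕ, 4 ≤ Z → ∀ᶠ X : ℝ in atTop,
    ∀ (ps : ℕ) (S : Finset ℕ) (a0 : ℕ), GoodP Z ps → GoodS X S →
    ∀ (U : Finset ℕ) (V T : ℤ → ℝ) (Z₁ M M' M₂ : ℝ),
    (∀ a, 0 ≤ V a ∧ V a ≤ X ^ (1 / 100 : ℝ)) → (∀ a, 0 ≤ T a) →
    1 ≤ Z₁ → 3 / 4 * Z₁ ≤ M → M ≤ Z₁ → 3 / 4 * M ≤ M' → 0 ≤ M₂ → M₂ ≤ Z₁ / (Real.log X) ^ 6 →
    (∀ t : Fin 2 → ℕ, (∀ j, (t j : ℝ) ≤ (Real.log X) ^ 2) → (∀ j, t j ∉ U) → ∃ e₁ e₂ e₃ : ℕ → ℝ,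
    (∀ q, 0 ≤ e₁ q ∧ 0 ≤ e₂ q ∧ 0 ≤ e₃ q) ∧
    ClassA X (WW X S ps) ps t V M e₁ ∧ ClassA X (WW X S ps) ps t (fun a => V a * T a) M₂ e₂ ∧
    (∀ i, ClassB X (WW X S ps) ps t i V M' e₃) ∧
    tot 2 X (WW X S ps) ps e₁ ≤ Z₁ * (X / ((WW X S ps : ℝ) * (Real.log X) ^ 6)) ∧
    tot 2 X (WW X S ps) ps e₂ ≤ Z₁ * (X / ((WW X S ps : ℝ) * (Real.log X) ^ 6)) ∧
    tot 2 X (WW X S ps) ps e₃ ≤ Z₁ * (X / ((WW X S ps : ℝ) * (Real.log X) ^ 6))) →
    ∀ t0 : ℕ, (t0 : ℝ) ≤ (Real.log X) ^ 2 → t0 ∉ U →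
    0 < Z₁ * (MPhi X / WW X S ps) ∧
    ∑ n ∈ Icc 1 ⌊3 * X⌋₊, nu X (WW X S ps) a0 n * V n ≤ 2 * (Z₁ * (MPhi X / WW X S ps)) ∧
    ∑ n ∈ Icc 1 ⌊3 * X⌋₊, nu X (WW X S ps) a0 n * V n * T n ≤
      (Z₁ * (MPhi X / WW X S ps)) / (Real.log X) ^ 3 ∧
    (∀ bad : Finset ℕ, (bad.card : ℝ) ≤ X ^ (9 / 10 : ℝ) →
      ∑ n ∈ Icc 1 ⌊3 * X⌋₊, nu X (WW X S ps) a0 n * V n * (if n ∈ bad then 1 else 0) ≤
        (Z₁ * (MPhi X / WW X S ps)) / (Real.log X) ^ 3) ∧
    (∀ t : ℕ, (t : ℝ) ≤ (Real.log X) ^ 2 → t ∉ U → (a0 + t).Coprime (WW X S ps) →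
      (Z₁ * (MPhi X / WW X S ps)) * (rh X (WW X S ps) / C) ≤
        ∑ n ∈ Icc 1 ⌊3 * X⌋₊, nu X (WW X S ps) a0 n * V n * thn X (n + t)) ∧
    (∀ t t' : ℕ, (t : ℝ) ≤ (Real.log X) ^ 2 → t ∉ U → (t' : ℝ) ≤ (Real.log X) ^ 2 → t' ∉ U → t ≠ t' →
      ∑ n ∈ Icc 1 ⌊3 * X⌋₊, nu X (WW X S ps) a0 n * V n * (if (n + t).Prime ∧ (n + t').Prime then 1 else 0) ≤
        (Z₁ * (MPhi X / WW X S ps)) * (C * (rh X (WW X S ps)) ^ 2)) := by
  classical
  refine ⟨10000 + 160000 * ((4 * gam) ^ 2 + 1) + 1, ?_, ?_⟩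
  · have := sq_nonneg (4 * gam)
    linarith
  intro Z hZ4
  have hη : (0 : ℝ) < 1 / 1000 := by norm_num
  filter_upwards [single_sum h5, pair_sum h5, errRG 3 1 (1 / 1000) zero_le_one hη, LPhi_ge,
    LL_tendsto.eventually_ge_atTop 1, eventually_ge_atTop (40 : ℝ), BE_Et2_ge 2,
    Real.tendsto_log_atTop.eventually_ge_atTop 1000]
    with X hsingle hpair herr hLP hL1 hX40 hBEt hlog
  intro ps S a0 hps hS U V T Z₁ M M' M₂ hV hT hZ1 hM1 hM2 hM' hM₂0 hM₂ hcl t0 ht0 ht0U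
  have hX0 : 0 < X := by linarith
  set W := WW X S ps with hW
  have hWpos : 0 < W := WW_pos X S ps
  have hWr : (0 : ℝ) < (W : ℝ) := by exact_mod_cast hWpos
  have hφpos : (0 : ℝ) < (W.totient : ℝ) := by exact_mod_cast Nat.totient_pos.2 hWpos
  have hφW : (W.totient : ℝ) ≤ W := by exact_mod_cast Nat.totient_le W
  set l := Real.log X with hl
  have hl0 : 0 < l := by linarith
  have hMge := MPhi_ge X hX40
  have hMle := MPhi_le X (by linarith)
  have hMpos : 0 < MPhi X := lt_of_lt_of_le (by positivity) hMge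
  set N := Z₁ * (MPhi X / W) with hN
  have hZ0 : 0 < Z₁ := by linarith
  have hN0 : 0 < N := by positivity
  have hLL0 : 0 ≤ LL X := by linarith
  have hM0 : 0 ≤ M := by linarith
  have hM'0 : 0 ≤ M' := by linarith
  -- the generic error
  have hXW : X / (W * l ^ 6) ≤ 20 * (MPhi X / W) / l ^ 6 := by
    rw [div_le_div_iff₀ (by positivity) (by positivity)]
    have h1 : X * l ^ 6 ≤ 20 * MPhi X * l ^ 6 := by
      apply mul_le_mul_of_nonneg_right _ (by positivity)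
      linarith
    calc X * l ^ 6 ≤ 20 * MPhi X * l ^ 6 := h1
      _ = 20 * (MPhi X / W) * (W * l ^ 6) := by field_simp
  have hEr : Z₁ * (X / (W * l ^ 6)) ≤ N * (20 / l ^ 6) := by
    calc Z₁ * (X / (W * l ^ 6)) ≤ Z₁ * (20 * (MPhi X / W) / l ^ 6) := mul_le_mul_of_nonneg_left hXW hZ0.le
      _ = N * (20 / l ^ 6) := by rw [hN]; ring
  -- small power
  have hpow : 21 / l ^ 6 ≤ 1 / l ^ 3 := by
    rw [div_le_div_iff₀ (by positivity) (by positivity)]
    have h1 : l ^ 3 * l ^ 3 = l ^ 6 := by ring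
    have h2 : (21 : ℝ) ≤ l ^ 3 := by
      calc (21 : ℝ) ≤ l := by linarith
        _ = l ^ 1 := (pow_one _).symm
        _ ≤ l ^ 3 := pow_le_pow_right₀ (by linarith) (by norm_num)
    nlinarith [pow_pos hl0 3]
  -- rho
  set ρ := rh X W with hρ
  have hρeq : ρ = ((W : ℝ) / W.totient) / l := rfl
  have hWφ : 1 ≤ (W : ℝ) / W.totient := by
    rw [le_div_iff₀ hφpos, one_mul]; exact hφW
  have hρlow : 1 / l ≤ ρ := by
    rw [hρeq]
    exact div_le_div_of_nonneg_right hWφ hl0.le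
  have hρ0 : 0 < ρ := lt_of_lt_of_le (by positivity) hρlow
  have herrW := herr W hWr (WW_le X (by linarith) S ps)
  rw [one_pow, one_mul] at herrW
  set sm : ℝ := Real.exp (2 * LL X) * X ^ (1 / 100 : ℝ) *
        ((4 * l ^ 2) * Real.log (4 * X) + 4 * Real.sqrt X * Real.log (4 * X)) with hsm
  have hlog4 : 0 ≤ Real.log (4 * X) := Real.log_nonneg (by linarith)
  have hsm0 : 0 ≤ sm := by positivity
  have hx9 : 0 ≤ X ^ (9 / 10 : ℝ) * (1 * Real.exp (2 * LL X) * X ^ (1 / 100 : ℝ)) := by positivity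
  have hXWl3 : X / (W * l ^ 3) * (1 / 1000) ≤ N * (1 / (50 * l ^ 3)) := by
    have h1 : X / (W * l ^ 3) ≤ 20 * (MPhi X / W) / l ^ 3 := by
      rw [div_le_div_iff₀ (by positivity) (by positivity)]
      have h1 : X * l ^ 3 ≤ 20 * MPhi X * l ^ 3 := by
        apply mul_le_mul_of_nonneg_right _ (by positivity)
        linarith
      calc X * l ^ 3 ≤ 20 * MPhi X * l ^ 3 := h1
        _ = 20 * (MPhi X / W) * (W * l ^ 3) := by field_simp
    calc X / (W * l ^ 3) * (1 / 1000) ≤ 20 * (MPhi X / W) / l ^ 3 * (1 / 1000) := by gcongr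
      _ = 1 * ((MPhi X / W) * (1 / (50 * l ^ 3))) := by field_simp; norm_num
      _ ≤ Z₁ * ((MPhi X / W) * (1 / (50 * l ^ 3))) := by gcongr
      _ = N * (1 / (50 * l ^ 3)) := by rw [hN]; ring
  have hsmN : sm ≤ N * (1 / (50 * l ^ 3)) := by
    refine le_trans ?_ hXWl3
    refine le_trans ?_ herrW
    push_cast
    linarith
  have hx9N : X ^ (9 / 10 : ℝ) * X ^ (1 / 100 : ℝ) ≤ N * (1 / (50 * l ^ 3)) := by
    refine le_trans ?_ hXWl3
    refine le_trans ?_ herrW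
    have h1 : 1 ≤ Real.exp (2 * LL X) := Real.one_le_exp (by linarith)
    have h2 : X ^ (9 / 10 : ℝ) * X ^ (1 / 100 : ℝ) ≤
        X ^ (9 / 10 : ℝ) * (1 * Real.exp (2 * LL X) * X ^ (1 / 100 : ℝ)) := by
      have h3 : 0 ≤ X ^ (9 / 10 : ℝ) * X ^ (1 / 100 : ℝ) := by positivity
      nlinarith
    push_cast
    nlinarith
  obtain ⟨e₁, e₂, e₃, he, hA1, hA2, hB, ht1, ht2, ht3⟩ := hcl (fun _ => t0) (fun _ => ht0) (fun _ => ht0U)
  refine ⟨hN0, ?_, ?_, ?_, ?_, ?_⟩
  · -- the total mass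
    have h1 := classA_one X W ps a0 _ V M e₁ hLL0 hA1
    have h2 := err_le_tot (K := 2) X W ps e₁ (fun q => (he q).1) hLL0
    have h3 : M * (MPhi X * (1 / W)) ≤ N := by
      rw [hN]
      calc M * (MPhi X * (1 / W)) ≤ Z₁ * (MPhi X * (1 / W)) := by gcongr
        _ = _ := by ring
    have h4 : N * (20 / l ^ 6) ≤ N := by
      have : 20 / l ^ 6 ≤ 1 := by
        have h5 : 20 / l ^ 6 ≤ 21 / l ^ 6 := by gcongr; norm_num
        have h6 : 1 / l ^ 3 ≤ 1 := by
          rw [div_le_one (by positivity)]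
          exact one_le_pow₀ (by linarith)
        linarith
      nlinarith
    linarith
  · -- the sum with T
    have h1 := classA_one X W ps a0 _ (fun a => V a * T a) M₂ e₂ hLL0 hA2
    have h2 := err_le_tot (K := 2) X W ps e₂ (fun q => (he q).2.1) hLL0
    have h3 : M₂ * (MPhi X * (1 / W)) ≤ N * (1 / l ^ 6) := by
      rw [hN]
      calc M₂ * (MPhi X * (1 / W)) ≤ (Z₁ / l ^ 6) * (MPhi X * (1 / W)) := by gcongr
        _ = _ := by ring
    have h4 : N * (1 / l ^ 6) + N * (20 / l ^ 6) = N * (21 / l ^ 6) := by ring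
    have h5 : N * (21 / l ^ 6) ≤ N / l ^ 3 := by
      calc N * (21 / l ^ 6) ≤ N * (1 / l ^ 3) := mul_le_mul_of_nonneg_left hpow hN0.le
        _ = _ := by ring
    have h6 : ∑ n ∈ Icc 1 ⌊3 * X⌋₊, nu X W a0 n * V n * T n =
        ∑ n ∈ Icc 1 ⌊3 * X⌋₊, nu X W a0 n * (fun a => V a * T a) (n : ℤ) := by
      refine Finset.sum_congr rfl fun n _ => ?_
      ring
    rw [h6]
    linarith
  · -- the bad set
    intro bad hbad
    have h1 : ∀ n, nu X W a0 n * V n ≤ X ^ (1 / 100 : ℝ) := by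
      intro n
      have h3 : nu X W a0 n ≤ 1 := by
        unfold nu
        split_ifs
        · exact Pool.Agent.H378R2.Phi_le_one _
        · exact zero_le_one
      calc nu X W a0 n * V n ≤ 1 * X ^ (1 / 100 : ℝ) :=
            mul_le_mul h3 (hV n).2 (hV n).1 zero_le_one
        _ = _ := one_mul _
    have h2 : ∑ n ∈ Icc 1 ⌊3 * X⌋₊, nu X W a0 n * V n * (if n ∈ bad then 1 else 0) =
        ∑ n ∈ (Icc 1 ⌊3 * X⌋₊).filter (fun n => n ∈ bad), nu X W a0 n * V n := by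
      rw [Finset.sum_filter]
      refine Finset.sum_congr rfl fun n _ => ?_
      split_ifs
      · rw [mul_one]
      · rw [mul_zero]
    rw [h2]
    refine (Finset.sum_le_sum fun n _ => h1 n).trans ?_
    rw [Finset.sum_const, nsmul_eq_mul]
    have h3 : ((((Icc 1 ⌊3 * X⌋₊).filter (fun n => n ∈ bad)).card : ℕ) : ℝ) ≤ bad.card := by
      apply Nat.cast_le.2
      apply Finset.card_le_card
      intro n hn
      exact (Finset.mem_filter.1 hn).2
    have h4 : 0 ≤ X ^ (1 / 100 : ℝ) := by positivity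
    calc _ ≤ (X ^ (9 / 10 : ℝ)) * X ^ (1 / 100 : ℝ) := mul_le_mul_of_nonneg_right (h3.trans hbad) h4
      _ ≤ N * (1 / (50 * l ^ 3)) := hx9N
      _ ≤ N * (1 / l ^ 3) := by
          apply mul_le_mul_of_nonneg_left _ hN0.le
          apply one_div_le_one_div_of_le (by positivity)
          nlinarith [pow_pos hl0 3]
      _ = N / l ^ 3 := by ring
  · -- single primes
    intro t ht htU hcop
    obtain ⟨e₁, e₂, e₃, he, hA1, hA2, hB, ht1, ht2, ht3⟩ := hcl (fun _ => t) (fun _ => ht) (fun _ => htU)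
    have h1 := hsingle Z ps S a0 t hps hS ht hcop V M' e₃ hM'0 hV (fun q => (he q).2.2) (hB 0)
    have h2 := err_le_tot (K := 2) X W ps e₃ (fun q => (he q).2.2) hLL0
    have h3 : 9 / 16 * Z₁ ≤ M' := by linarith
    have h4 : MPhi X / 400 ≤ LPhi X := by linarith
    have h5' : N * (l * ρ) * (9 / 12800) ≤ M' * ((LPhi X * (1 / (W.totient : ℝ))) * (1 / 2)) := by
      have e1 : N * (l * ρ) = Z₁ * (MPhi X / W.totient) := by
        rw [hN, hρeq]
        field_simp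
      rw [e1]
      calc Z₁ * (MPhi X / W.totient) * (9 / 12800) =
          (9 / 16 * Z₁) * ((MPhi X / 400 * (1 / (W.totient : ℝ))) * (1 / 2)) := by ring
        _ ≤ _ := by gcongr
    have hlρ : 1 ≤ l * ρ := by
      have : l * (1 / l) ≤ l * ρ := mul_le_mul_of_nonneg_left hρlow hl0.le
      rwa [mul_one_div_cancel hl0.ne'] at this
    have h6 : e₃ 1 + sm ≤ N * (l * ρ) * (1 / 12800) := by
      have e1 : N * (20 / l ^ 6) ≤ N * (1 / 25600) := by
        apply mul_le_mul_of_nonneg_left _ hN0.le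
        have : 1000 ^ 3 ≤ l ^ 3 := pow_le_pow_left₀ (by norm_num) hlog 3
        have h7 : 1 / l ^ 3 ≤ 1 / 1000 ^ 3 := one_div_le_one_div_of_le (by norm_num) this
        have h8 : 20 / l ^ 6 ≤ 21 / l ^ 6 := by gcongr; norm_num
        have h9 : (1 : ℝ) / 1000 ^ 3 ≤ 1 / 25600 := by norm_num
        linarith
      have e2 : N * (1 / (50 * l ^ 3)) ≤ N * (1 / 25600) := by
        apply mul_le_mul_of_nonneg_left _ hN0.le
        apply one_div_le_one_div_of_le (by norm_num)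
        have : 1000 ^ 3 ≤ l ^ 3 := pow_le_pow_left₀ (by norm_num) hlog 3
        norm_num at this
        linarith
      have e3 : N * (1 / 12800) ≤ N * (l * ρ) * (1 / 12800) := by
        have : N * 1 ≤ N * (l * ρ) := mul_le_mul_of_nonneg_left hlρ hN0.le
        linarith
      linarith
    have h7 : N * (l * ρ) * (1 / 1600) ≤ ∑ n ∈ Icc 1 ⌊3 * X⌋₊, nu X W a0 n * (V n * th (n + t)) := by
      refine le_trans ?_ h1
      linarith
    have h8 : ∑ n ∈ Icc 1 ⌊3 * X⌋₊, nu X W a0 n * V n * thn X (n + t) =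
        (∑ n ∈ Icc 1 ⌊3 * X⌋₊, nu X W a0 n * (V n * th (n + t))) / Real.log (4 * X) := by
      rw [Finset.sum_div]
      refine Finset.sum_congr rfl fun n _ => ?_
      unfold thn
      ring
    have hl4 : Real.log (4 * X) ≤ 2 * l := by
      rw [Real.log_mul (by norm_num) hX0.ne', ← hl]
      have h2 : Real.log 4 ≤ 2 := by
        have : Real.log 4 = 2 * Real.log 2 := by
          rw [show (4 : ℝ) = 2 ^ 2 by norm_num, Real.log_pow]; norm_num
        have := Real.log_two_lt_d9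
        linarith
      linarith
    have hl4pos : 0 < Real.log (4 * X) := Real.log_pos (by linarith)
    rw [h8, le_div_iff₀ hl4pos]
    refine le_trans ?_ h7
    have hC : (1 : ℝ) / (10000 + 160000 * ((4 * gam) ^ 2 + 1) + 1) ≤ 1 / 3200 := by
      apply one_div_le_one_div_of_le (by norm_num)
      have := sq_nonneg (4 * gam)
      linarith
    calc N * (ρ / (10000 + 160000 * ((4 * gam) ^ 2 + 1) + 1)) * Real.log (4 * X) ≤
        N * (ρ * (1 / 3200)) * (2 * l) := by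
          rw [div_eq_mul_one_div ρ]
          gcongr
      _ = N * (l * ρ) * (1 / 1600) := by ring
  · -- pairs
    intro t t' ht htU ht' htU' hne
    obtain ⟨e₁, e₂, e₃, he, hA1, hA2, hB, ht1, ht2, ht3⟩ := hcl ![t, t']
      (fun j => by fin_cases j; exacts [ht, ht']) (fun j => by fin_cases j; exacts [htU, htU'])
    have hinj : Function.Injective ![t, t'] := by
      intro i j hij
      fin_cases i <;> fin_cases j <;> simp_all
    have hts : ∀ j, ((![t, t'] j : ℕ) : ℝ) ≤ l ^ 2 := fun j => by fin_cases j; exacts [ht, ht']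
    have h1 := hpair Z ps S a0 ![t, t'] hps hS hinj hts V M e₁ (fun a => (hV a).1) hM0 (fun q => (he q).1) hA1
    have hBE := hBEt Z ps S ![t, t'] hZ4 hps hS hts
    have hBEpos : 0 < BE (PW X S ps) := BE_pos fun p hp => (mem_PW.1 hp).2.1
    have hφeq : (W.totient : ℝ) = W * BE (PW X S ps) := totient_WW X S ps
    have hBEρ : 1 / (400 * ρ) ≤ LL X * BE (Et X S ps ![t, t']) := by
      have e1 : 1 / (400 * ρ) = (l / 200) * (BE (PW X S ps) / 2) := by
        rw [hρeq, hφeq]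
        field_simp
        norm_num
      rw [e1]
      have e2 : LL X = l / 200 := rfl
      rw [e2]
      gcongr
    have h2 : 1 / (LL X * BE (Et X S ps ![t, t'])) ^ 2 ≤ 160000 * ρ ^ 2 := by
      have e1 : 160000 * ρ ^ 2 = 1 / (1 / (400 * ρ)) ^ 2 := by field_simp; norm_num
      rw [e1]
      apply one_div_le_one_div_of_le (by positivity)
      exact pow_le_pow_left₀ (by positivity) hBEρ 2
    have h3 : M * ((MPhi X * (1 / (W : ℝ))) * (1 / (LL X * BE (Et X S ps ![t, t'])) ^ 2) * ((4 * gam) ^ 2 + 1)) ≤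
        N * (160000 * ((4 * gam) ^ 2 + 1) * ρ ^ 2) := by
      calc _ ≤ Z₁ * ((MPhi X * (1 / (W : ℝ))) * (160000 * ρ ^ 2) * ((4 * gam) ^ 2 + 1)) := by gcongr
        _ = _ := by rw [hN]; ring
    have h4 : N * (20 / l ^ 6) ≤ N * ρ ^ 2 := by
      apply mul_le_mul_of_nonneg_left _ hN0.le
      have e1 : 1 / l ^ 3 ≤ (1 / l) ^ 2 := by
        rw [div_pow, one_pow]
        apply one_div_le_one_div_of_le (by positivity)
        exact pow_le_pow_right₀ (by linarith) (by norm_num)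
      have e2 : (1 / l) ^ 2 ≤ ρ ^ 2 := pow_le_pow_left₀ (by positivity) hρlow 2
      have h8 : 20 / l ^ 6 ≤ 21 / l ^ 6 := by gcongr; norm_num
      linarith
    have h5'' : ∀ n : ℕ, (if (n + ![t, t'] 0).Prime ∧ (n + ![t, t'] 1).Prime then (1 : ℝ) else 0) =
        if (n + t).Prime ∧ (n + t').Prime then 1 else 0 := fun n => by simp
    simp only [h5''] at h1
    have h6 : N * (160000 * ((4 * gam) ^ 2 + 1) * ρ ^ 2) + N * ρ ^ 2 ≤
        N * ((10000 + 160000 * ((4 * gam) ^ 2 + 1) + 1) * ρ ^ 2) := by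
      have : 0 ≤ N * ρ ^ 2 := by positivity
      nlinarith
    linarith

end Pool.Agent.TH915.UC
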