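import Pool.Agent.TH915.UC.BT
import Pool.Agent.H312R2.RG.C3a
import Pool.Agent.H378R2.M7m

set_option autoImplicit false

/-! Primes of a residue class: upper bound in short intervals, lower bound in initial segments. -/

open Finset Filter Topology

namespace Pool.Agent.TH915.UC

theorem primes_interval (q a u g : ℕ) (hq : 0 < q) (hg : q ^ 2 ≤ g) (hg4 : 4 ≤ g) :
    (((Ioc u (u + g)).filter (fun p => p.Prime ∧ p ≡ a [MOD q])).card : ℝ) ≤
      88 * g / (q.totient * Real.log g) := by
  classical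
  have hφ : (0 : ℝ) < q.totient := by exact_mod_cast Nat.totient_pos.2 hq
  have hq' : (0 : ℝ) < q := by exact_mod_cast hq
  have hg4' : (4 : ℝ) ≤ g := by exact_mod_cast hg4
  have hlg : 0 < Real.log g := Real.log_pos (by linarith)
  set Q := (Ioc u (u + g)).filter (fun p => p.Prime ∧ p ≡ a [MOD q]) with hQ
  rcases Q.eq_empty_or_nonempty with h0 | hne
  · rw [h0]
    simp only [card_empty, Nat.cast_zero]
    positivity
  set p0 := Q.min' hne with hp0
  have hp0Q : p0 ∈ Q := Q.min'_mem hne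
  have hp0' := hp0Q
  rw [hQ, mem_filter, mem_Ioc] at hp0'
  set N := g / q + 1 with hN
  have hsub : Q ⊆ ((range N).filter (fun k => (p0 + k * q).Prime)).image (fun k => p0 + k * q) := by
    intro p hp
    have hmin : p0 ≤ p := Q.min'_le p hp
    rw [hQ, mem_filter, mem_Ioc] at hp
    have h1 : q ∣ p - p0 := (Nat.modEq_iff_dvd' hmin).1 (hp0'.2.2.trans hp.2.2.symm)
    obtain ⟨k, hk⟩ := h1
    have h2 : p = p0 + k * q := by
      rw [mul_comm]; omega
    rw [mem_image]
    refine ⟨k, ?_, h2.symm⟩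
    rw [mem_filter, mem_range, hN, Nat.lt_succ_iff, Nat.le_div_iff_mul_le hq]
    refine ⟨?_, by rw [← h2]; exact hp.2.1⟩
    have : k * q = p - p0 := by omega
    omega
  have hgq : q ≤ g / q := by
    rw [Nat.le_div_iff_mul_le hq]
    nlinarith
  have hN2 : 2 ≤ N := by omega
  have h1 := bt_gen p0 q N hq hN2
  have h2 : (Q.card : ℝ) ≤ (((range N).filter (fun k => (p0 + k * q).Prime)).card : ℝ) := by
    exact_mod_cast (card_le_card hsub).trans card_image_le
  refine h2.trans (h1.trans ?_)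
  have hN0 : (0 : ℝ) < N := by positivity
  have hdiv : ((g / q : ℕ) : ℝ) ≤ (g : ℝ) / q := Nat.cast_div_le
  have hgq' : (1 : ℝ) ≤ (g : ℝ) / q := by
    rw [le_div_iff₀ hq', one_mul]
    have : q ≤ g := le_trans hgq (Nat.div_le_self _ _)
    exact_mod_cast this
  have hN3 : (N : ℝ) ≤ 2 * (g / q) := by
    rw [hN]; push_cast; linarith
  have hNlow : (g : ℝ) ≤ (N : ℝ) ^ 2 := by
    have h3 : g < N * q := by
      rw [hN]
      have := Nat.lt_div_mul_add (a := g) hq
      nlinarith [Nat.div_mul_le_self g q]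
    have h4 : q ≤ N := by omega
    have h5 : g ≤ N ^ 2 := by nlinarith
    exact_mod_cast h5
  have hlN : Real.log g / 2 ≤ Real.log N := by
    have h3 := Real.log_le_log (by linarith) hNlow
    rw [Real.log_pow] at h3
    push_cast at h3
    linarith
  have hlN0 : 0 < Real.log N := by linarith
  calc 22 * ((q : ℝ) / q.totient) * N / Real.log N ≤
      22 * ((q : ℝ) / q.totient) * (2 * (g / q)) / (Real.log g / 2) := by gcongr
    _ = 88 * g / (q.totient * Real.log g) := by
      field_simp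
      norm_num

theorem primes_ap_lower (q a : ℕ) (hq : 0 < q) (ha : a.Coprime q) :
    ∀ᶠ x : ℝ in atTop, x / (2 * q.totient * Real.log x) ≤
      (((Icc 1 ⌊x⌋₊).filter (fun p => p.Prime ∧ p ≡ a [MOD q])).card : ℝ) := by
  haveI : NeZero q := ⟨hq.ne'⟩
  have hu : IsUnit (a : ZMod q) := (ZMod.isUnit_iff_coprime a q).2 ha
  set F : ℝ → ℝ := fun x => ∑ k ∈ Finset.Icc 1 ⌊x⌋₊,
      ArithmeticFunction.vonMangoldt.residueClass (a : ZMod q) k with hF
  have h1 : Tendsto (fun x : ℝ => F x / x) atTop (𝓝 ((q.totient : ℝ)⁻¹)) :=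
    Pool.Agent.Helper923.PNT.pnt_residueClass hu
  have hφ0 : (0 : ℝ) < q.totient := by exact_mod_cast Nat.totient_pos.2 hq
  have hφ : (0 : ℝ) < (q.totient : ℝ)⁻¹ := by positivity
  have h5 := h1.eventually (lt_mem_nhds (show (q.totient : ℝ)⁻¹ * (3 / 4) < (q.totient : ℝ)⁻¹ by linarith))
  have h6 : ∀ᶠ x : ℝ in atTop, 2 * Real.sqrt x * Real.log x ≤ (q.totient : ℝ)⁻¹ / 4 * x := by
    have e1 := (isLittleO_log_rpow_atTop (show (0 : ℝ) < 1 / 4 by norm_num)).def (show (0 : ℝ) < 1 by norm_num)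
    have e4 : ∀ᶠ x : ℝ in atTop, 8 * (q.totient : ℝ) ≤ x ^ (1 / 4 : ℝ) :=
      (tendsto_rpow_atTop (show (0 : ℝ) < 1 / 4 by norm_num)).eventually_ge_atTop _
    filter_upwards [e1, e4, eventually_ge_atTop (1 : ℝ)] with x h7 h8 h9
    rw [one_mul, Real.norm_of_nonneg (Real.log_nonneg h9), Real.norm_of_nonneg (Real.rpow_nonneg (by linarith) _)] at h7
    set w := x ^ (1 / 4 : ℝ) with hw
    have hw0 : 0 ≤ w := Real.rpow_nonneg (by linarith) _
    have hw4 : w ^ 4 = x := by
      rw [hw, ← Real.rpow_natCast, ← Real.rpow_mul (by linarith)]; norm_num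
    have hsq : Real.sqrt x = w ^ 2 := by
      rw [← hw4, show w ^ 4 = (w ^ 2) ^ 2 by ring, Real.sqrt_sq (by positivity)]
    rw [hsq]
    have h11 : 2 * w ^ 2 * Real.log x ≤ 2 * w ^ 3 := by
      calc 2 * w ^ 2 * Real.log x ≤ 2 * w ^ 2 * w := mul_le_mul_of_nonneg_left h7 (by positivity)
        _ = _ := by ring
    refine h11.trans ?_
    have h12 : (q.totient : ℝ)⁻¹ / 4 * (8 * (q.totient : ℝ)) = 2 := by field_simp; norm_num
    have h13 : (q.totient : ℝ)⁻¹ / 4 * (8 * (q.totient : ℝ)) ≤ (q.totient : ℝ)⁻¹ / 4 * w :=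
      mul_le_mul_of_nonneg_left h8 (by positivity)
    rw [h12] at h13
    calc 2 * w ^ 3 ≤ ((q.totient : ℝ)⁻¹ / 4 * w) * w ^ 3 := mul_le_mul_of_nonneg_right h13 (by positivity)
      _ = (q.totient : ℝ)⁻¹ / 4 * w ^ 4 := by ring
      _ = _ := by rw [hw4]
  filter_upwards [h5, h6, eventually_ge_atTop (2 : ℝ)] with x hx5 hx6 hx2
  have hx0 : 0 < x := by linarith
  have hlx : 0 < Real.log x := Real.log_pos (by linarith)
  set A := (Icc 1 ⌊x⌋₊).filter (fun p => p.Prime ∧ p ≡ a [MOD q]) with hA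
  have h7 : F x ≤ A.card * Real.log x + 2 * Real.sqrt x * Real.log x := by
    have hnp := Pool.Agent.H378R2.sum_nonprime_le x (by linarith)
    have h8 : ∀ k ∈ Finset.Icc 1 ⌊x⌋₊, ArithmeticFunction.vonMangoldt.residueClass (a : ZMod q) k ≤
        (if (k.Prime ∧ k ≡ a [MOD q]) then Real.log x else 0) +
          (if ¬ k.Prime then ArithmeticFunction.vonMangoldt k else 0) := by
      intro k hk
      rw [mem_Icc] at hk
      have hkx : (k : ℝ) ≤ x := (Nat.le_floor_iff hx0.le).1 hk.2
      by_cases hp : k.Prime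
      · rw [if_neg (not_not.2 hp), add_zero]
        by_cases hc : k ≡ a [MOD q]
        · rw [if_pos ⟨hp, hc⟩]
          refine (ArithmeticFunction.vonMangoldt.residueClass_le _ k).trans ?_
          rw [ArithmeticFunction.vonMangoldt_apply_prime hp]
          exact Real.log_le_log (by exact_mod_cast hp.pos) hkx
        · rw [if_neg (fun h => hc h.2)]
          have h12 : ¬ ((k : ZMod q) = (a : ZMod q)) := fun h13 =>
            hc ((ZMod.natCast_eq_natCast_iff k a q).1 h13)
          have : ArithmeticFunction.vonMangoldt.residueClass (a : ZMod q) k = 0 := by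
            unfold ArithmeticFunction.vonMangoldt.residueClass
            rw [Set.indicator_of_notMem]
            exact h12
          rw [this]
      · rw [if_neg (fun h => hp h.1), zero_add, if_pos hp]
        exact ArithmeticFunction.vonMangoldt.residueClass_le _ k
    have h9 := Finset.sum_le_sum h8
    rw [Finset.sum_add_distrib, ← Finset.sum_filter, Finset.sum_const, nsmul_eq_mul, ← Finset.sum_filter] at h9
    exact h9.trans (add_le_add le_rfl hnp)
  have h8 : (q.totient : ℝ)⁻¹ * (3 / 4) * x < F x := by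
    rwa [lt_div_iff₀ hx0] at hx5
  have h9 : (q.totient : ℝ)⁻¹ / 2 * x ≤ A.card * Real.log x := by linarith
  rw [div_le_iff₀ (by positivity)]
  have h10 : (q.totient : ℝ)⁻¹ / 2 * x * (2 * q.totient) = x := by
    field_simp
  nlinarith [mul_le_mul_of_nonneg_right h9 (show (0 : ℝ) ≤ 2 * q.totient by positivity)]

end Pool.Agent.TH915.UC
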