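import Pool.Agent.TH915.UC.Frame
import Pool.Agent.TH915.UC.Avg
import Pool.Agent.TH915.UC.PAP

/-! The classes modulo the primes up to `y`: few survivors, many of them primes of a given residue class, and
the primes among them are well spaced on average. -/

set_option autoImplicit false
set_option maxHeartbeats 4000000

namespace Pool.Agent.TH915.UC

open Finset Filter Pool.Agent.H318R2.Cr Pool.Agent.H398R2.RK

open scoped Classical

/-- pairs survive with the product probability, up to a factor `2` -/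
theorem pair_prod (P : Finset ℕ) (hP : ∀ p ∈ P, p.Prime ∧ 3 ≤ p) (k l H : ℕ) (hkl : k < l) (hl : l ≤ H)
    (L : ℝ) (hL : 100 ≤ L) (hPL : ∀ p ∈ P, L ^ 2 < p) (hH : Real.log H ≤ 3 * L) :
    ∏ p ∈ P, wp p k l ≤ 2 * (∏ p ∈ P, (1 - 1 / (p : ℝ))) ^ 2 := by
  set E := P.filter (fun p => k ≡ l [MOD p]) with hE
  have hEsub : E ⊆ (l - k).primeFactors := by
    intro p hp
    rw [hE, mem_filter] at hp
    rw [Nat.mem_primeFactors]
    exact ⟨(hP p hp.1).1, (Nat.modEq_iff_dvd' hkl.le).1 hp.2, by omega⟩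
  have hEcard : (E.card : ℝ) ≤ 6 * L := by
    have h1 := card_primeFactors_le (l - k) (by omega)
    have h2 : (E.card : ℝ) ≤ ((l - k).primeFactors.card : ℝ) := by exact_mod_cast card_le_card hEsub
    have h3 : Real.log ((l - k : ℕ) : ℝ) ≤ Real.log H := by
      apply Real.log_le_log
      · exact_mod_cast (by omega : 0 < l - k)
      · exact_mod_cast (by omega : l - k ≤ H)
    linarith
  have h0 : ∀ p ∈ P, 0 ≤ 1 - 1 / (p : ℝ) := fun p hp => (one_sub_inv_pos (hP p hp).1).le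
  have h1 : ∀ p ∈ P, wp p k l ≤ if p ∈ E then 1 else (1 - 1 / (p : ℝ)) ^ 2 := by
    intro p hp
    have hp3 : (3 : ℝ) ≤ p := by exact_mod_cast (hP p hp).2
    unfold wp
    by_cases h : k ≡ l [MOD p]
    · have : p ∈ E := by rw [hE, mem_filter]; exact ⟨hp, h⟩
      rw [if_pos h, if_pos this]
      have : (0 : ℝ) ≤ 1 / p := by positivity
      linarith
    · have : p ∉ E := fun h' => h (mem_filter.1 h').2
      rw [if_neg h, if_neg this]
      have h5 : (1 - 1 / (p : ℝ)) ^ 2 = 1 - 2 / p + (1 / p) ^ 2 := by ring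
      have := sq_nonneg (1 / (p : ℝ))
      linarith
  have hwp0 : ∀ p ∈ P, 0 ≤ wp p k l := by
    intro p hp
    have hp3 : (3 : ℝ) ≤ p := by exact_mod_cast (hP p hp).2
    unfold wp
    split_ifs
    · exact h0 p hp
    · have : 2 / (p : ℝ) ≤ 1 := by
        rw [div_le_one (by linarith)]; linarith
      linarith
  have h2 : ∏ p ∈ P, wp p k l ≤ ∏ p ∈ P, (if p ∈ E then 1 else (1 - 1 / (p : ℝ)) ^ 2) :=
    Finset.prod_le_prod hwp0 h1
  have h3 : ∏ p ∈ P, (if p ∈ E then 1 else (1 - 1 / (p : ℝ)) ^ 2) = (∏ p ∈ P \ E, (1 - 1 / (p : ℝ))) ^ 2 := by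
    rw [← Finset.prod_pow, ← prod_sdiff (show E ⊆ P from filter_subset _ _)]
    have e1 : ∏ p ∈ E, (if p ∈ E then (1 : ℝ) else (1 - 1 / (p : ℝ)) ^ 2) = 1 := by
      apply prod_eq_one
      intro p hp
      rw [if_pos hp]
    rw [e1, mul_one]
    apply prod_congr rfl
    intro p hp
    rw [if_neg (mem_sdiff.1 hp).2]
  have hL2 : 0 < L ^ 2 := by positivity
  have h4 := prod_drop P E hP (filter_subset _ _) (L ^ 2) (6 * L) hL2 (fun p hp => hPL p (mem_filter.1 hp).1) hEcard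
  have h5 : 0 ≤ ∏ p ∈ P \ E, (1 - 1 / (p : ℝ)) := prod_nonneg fun p hp => h0 p (mem_sdiff.1 hp).1
  have h6 : Real.exp (2 * (6 * L) / L ^ 2) ^ 2 ≤ 2 := by
    rw [← Real.exp_nat_mul]
    have h7 : ((2 : ℕ) : ℝ) * (2 * (6 * L) / L ^ 2) ≤ 24 / 100 := by
      have : 2 * (6 * L) / L ^ 2 = 12 / L := by field_simp; norm_num
      rw [this]
      have : 12 / L ≤ 12 / 100 := div_le_div_of_nonneg_left (by norm_num) (by norm_num) hL
      push_cast; linarith
    refine (Real.exp_le_exp.2 h7).trans ?_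
    have h8 : Real.exp (24 / 100) ≤ Real.exp (Real.log 2) := by
      apply Real.exp_le_exp.2
      have := Real.log_two_gt_d9
      linarith
    rwa [Real.exp_log (by norm_num)] at h8
  calc ∏ p ∈ P, wp p k l ≤ (∏ p ∈ P \ E, (1 - 1 / (p : ℝ))) ^ 2 := h2.trans h3.le
    _ ≤ ((∏ p ∈ P, (1 - 1 / (p : ℝ))) * Real.exp (2 * (6 * L) / L ^ 2)) ^ 2 := by gcongr
    _ = Real.exp (2 * (6 * L) / L ^ 2) ^ 2 * (∏ p ∈ P, (1 - 1 / (p : ℝ))) ^ 2 := by ring
    _ ≤ _ := by gcongr

/-- the linear functional: a choice of classes with few survivors (`R`), many survivors in `Q`, few close pairs -/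
theorem choose_b (P : Finset ℕ) (hP : ∀ p ∈ P, 0 < p) (R Q : Finset ℕ) (hQR : Q ⊆ R) (close : ℕ → ℕ → Prop)
    (θ μ ρ π : ℝ) (hθ : θ = ∏ p ∈ P, (1 - 1 / (p : ℝ))) (hμ : μ = θ * Q.card) (hμ1 : 1 ≤ μ) (hρ : 0 < ρ) (hπ : 0 < π)
    (hθ0 : 0 < θ) (hR : θ * R.card ≤ ρ) (hpair : ∀ k ∈ Q, ∀ l ∈ Q, k ≠ l → ∏ p ∈ P, wp p k l ≤ 2 * θ ^ 2)
    (hirr : ∀ k, ¬ close k k)
    (hclose : 2 * θ ^ 2 * (((Q ×ˢ Q).filter (fun x => close x.1 x.2)).card : ℝ) ≤ π) :
    ∃ b : ℕ → ℕ, (∀ p ∈ P, b p < p) ∧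
      ((R.filter (fun k => ∀ p ∈ P, ¬ k ≡ b p [MOD p])).card : ℝ) ≤ 20 * ρ ∧
      μ / 2 ≤ ((Q.filter (fun k => ∀ p ∈ P, ¬ k ≡ b p [MOD p])).card : ℝ) ∧
      ((((Q.filter (fun k => ∀ p ∈ P, ¬ k ≡ b p [MOD p])) ×ˢ
        (Q.filter (fun k => ∀ p ∈ P, ¬ k ≡ b p [MOD p]))).filter (fun x => close x.1 x.2)).card : ℝ) ≤ 20 * π := by
  have hμ0 : 0 < μ := by linarith
  set α : ℕ → ℝ := fun k => (if k ∈ Q then 1 / μ else 0) - 1 / (8 * ρ) with hα
  set β : ℕ → ℕ → ℝ := fun k l => if k ∈ Q ∧ l ∈ Q then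
    -(1 / (12 * μ ^ 2)) - (if close k l then 1 / (8 * π) else 0) else 0 with hβ
  obtain ⟨b, hb, hbv⟩ := avg_gen P hP R α β
  refine ⟨b, hb, ?_⟩
  set s : ℕ → Prop := fun k => ∀ p ∈ P, ¬ k ≡ b p [MOD p] with hs
  set Rs := R.filter s with hRs
  set Qs := Q.filter s with hQs
  set Cs := (Qs ×ˢ Qs).filter (fun x => close x.1 x.2) with hCs
  -- the mean
  have hmean : 1 / 2 ≤ mean P R α β := by
    unfold mean
    have m1 : 1 - 1 / 8 ≤ ∑ k ∈ R, α k * ∏ p ∈ P, (1 - 1 / (p : ℝ)) := by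
      rw [← hθ, ← sum_mul]
      simp only [hα]
      rw [sum_sub_distrib, sum_const, nsmul_eq_mul, ← sum_filter, sum_const, nsmul_eq_mul]
      have h1 : R.filter (fun k => k ∈ Q) = Q := by
        ext k
        rw [mem_filter]
        exact ⟨fun h => h.2, fun h => ⟨hQR h, h⟩⟩
      rw [h1, sub_mul]
      have h2 : (Q.card : ℝ) * (1 / μ) * θ = 1 := by
        have : (Q.card : ℝ) * (1 / μ) * θ = (θ * Q.card) / μ := by ring
        rw [this, ← hμ, div_self hμ0.ne']
      have h3 : (R.card : ℝ) * (1 / (8 * ρ)) * θ ≤ 1 / 8 := by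
        have : (R.card : ℝ) * (1 / (8 * ρ)) * θ = (θ * R.card) / (8 * ρ) := by ring
        rw [this, div_le_iff₀ (by positivity)]
        linarith
      rw [h2]; linarith
    have m2 : -(1 / 4 + 1 / 8) ≤ ∑ k ∈ R, ∑ l ∈ R, β k l * ∏ p ∈ P, wp p k l := by
      have hprod0 : ∀ k l, 0 ≤ ∏ p ∈ P, wp p k l ∨ True := fun _ _ => Or.inr trivial
      have e1 : ∑ k ∈ R, ∑ l ∈ R, β k l * ∏ p ∈ P, wp p k l = ∑ k ∈ Q, ∑ l ∈ Q, β k l * ∏ p ∈ P, wp p k l := by
        symm
        apply Finset.sum_subset_zero_on_sdiff hQR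
        · intro k hk
          apply sum_eq_zero
          intro l _
          simp only [hβ]
          rw [if_neg (fun h => (mem_sdiff.1 hk).2 h.1), zero_mul]
        · intro k hk
          apply Finset.sum_subset hQR
          intro l _ hl
          simp only [hβ]
          rw [if_neg (fun h => hl h.2), zero_mul]
      rw [e1]
      have e2 : ∀ k ∈ Q, ∀ l ∈ Q, -(1 / (12 * μ ^ 2)) * ((if k = l then θ else 0) + 2 * θ ^ 2) -
          (if close k l then 1 / (8 * π) * (2 * θ ^ 2) else 0) ≤ β k l * ∏ p ∈ P, wp p k l := by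
        intro k hk l hl
        have hβkl : β k l = -(1 / (12 * μ ^ 2)) - (if close k l then 1 / (8 * π) else 0) := by
          simp only [hβ]
          rw [if_pos ⟨hk, hl⟩]
        rw [hβkl]
        by_cases hkl : k = l
        · subst hkl
          have h1 : ∏ p ∈ P, wp p k k = θ := by
            rw [hθ]
            apply prod_congr rfl
            intro p _
            unfold wp
            rw [if_pos (Nat.ModEq.refl k)]
          rw [h1, if_pos rfl, if_neg (hirr k), if_neg (hirr k)]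
          have : 0 ≤ 1 / (12 * μ ^ 2) * (2 * θ ^ 2) := by positivity
          linarith
        · have h1 := hpair k hk l hl hkl
          rw [if_neg hkl]
          split_ifs with hc
          · have h2 : 0 ≤ 1 / (12 * μ ^ 2) := by positivity
            have h3 : 0 ≤ 1 / (8 * π) := by positivity
            nlinarith
          · have h2 : 0 ≤ 1 / (12 * μ ^ 2) := by positivity
            nlinarith
      have e3 : ∑ k ∈ Q, ∑ l ∈ Q, (-(1 / (12 * μ ^ 2)) * ((if k = l then θ else 0) + 2 * θ ^ 2) -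
          (if close k l then 1 / (8 * π) * (2 * θ ^ 2) else 0)) ≤ ∑ k ∈ Q, ∑ l ∈ Q, β k l * ∏ p ∈ P, wp p k l :=
        sum_le_sum fun k hk => sum_le_sum fun l hl => e2 k hk l hl
      refine le_trans ?_ e3
      have e4 : ∑ k ∈ Q, ∑ l ∈ Q, (-(1 / (12 * μ ^ 2)) * ((if k = l then θ else 0) + 2 * θ ^ 2) -
          (if close k l then 1 / (8 * π) * (2 * θ ^ 2) else 0)) =
          -(1 / (12 * μ ^ 2)) * (μ + 2 * μ ^ 2) -
          1 / (8 * π) * (2 * θ ^ 2 * (((Q ×ˢ Q).filter (fun x => close x.1 x.2)).card : ℝ)) := by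
        simp only [sum_sub_distrib, ← mul_sum, sum_add_distrib, sum_const, nsmul_eq_mul]
        congr 1
        · congr 1
          congr 1
          · have : ∀ k ∈ Q, ∑ l ∈ Q, (if k = l then θ else 0) = θ := by
              intro k hk
              rw [sum_ite_eq, if_pos hk]
            rw [sum_congr rfl this, sum_const, nsmul_eq_mul, hμ]
            ring
          · rw [hμ]; ring
        · rw [card_filter, Nat.cast_sum, sum_product, mul_sum, mul_sum]
          apply sum_congr rfl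
          intro k _
          rw [mul_sum, mul_sum]
          apply sum_congr rfl
          intro l _
          split_ifs <;> push_cast <;> ring
      rw [e4]
      have h1 : 1 / (12 * μ ^ 2) * (μ + 2 * μ ^ 2) ≤ 1 / 4 := by
        rw [div_mul_eq_mul_div, one_mul, div_le_div_iff₀ (by positivity) (by norm_num)]
        nlinarith
      have h2 : 1 / (8 * π) * (2 * θ ^ 2 * (((Q ×ˢ Q).filter (fun x => close x.1 x.2)).card : ℝ)) ≤ 1 / 8 := by
        calc _ ≤ 1 / (8 * π) * π := mul_le_mul_of_nonneg_left hclose (by positivity)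
          _ = 1 / 8 := by field_simp
      linarith
    linarith
  have hval : val P R α β b = (Qs.card : ℝ) / μ - (Rs.card : ℝ) / (8 * ρ) - (Qs.card : ℝ) ^ 2 / (12 * μ ^ 2) -
      (Cs.card : ℝ) / (8 * π) := by
    unfold val
    have v1 : ∑ k ∈ R, (if ∀ p ∈ P, ¬ k ≡ b p [MOD p] then α k else 0) =
        (Qs.card : ℝ) / μ - (Rs.card : ℝ) / (8 * ρ) := by
      rw [← sum_filter]
      simp only [hα]
      rw [sum_sub_distrib, sum_const, nsmul_eq_mul, ← sum_filter, sum_const, nsmul_eq_mul]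
      have h1 : (R.filter (fun k => ∀ p ∈ P, ¬ k ≡ b p [MOD p])).filter (fun k => k ∈ Q) = Qs := by
        ext k
        rw [mem_filter, mem_filter, hQs, mem_filter]
        constructor
        · rintro ⟨⟨_, h2⟩, h3⟩; exact ⟨h3, h2⟩
        · rintro ⟨h1, h2⟩; exact ⟨⟨hQR h1, h2⟩, h1⟩
      rw [h1]
      ring
    have v2 : ∑ k ∈ R, ∑ l ∈ R, (if (∀ p ∈ P, ¬ k ≡ b p [MOD p]) ∧ ∀ p ∈ P, ¬ l ≡ b p [MOD p] then β k l else 0) =
        - (Qs.card : ℝ) ^ 2 / (12 * μ ^ 2) - (Cs.card : ℝ) / (8 * π) := by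
      have e1 : ∀ k l, (if (∀ p ∈ P, ¬ k ≡ b p [MOD p]) ∧ ∀ p ∈ P, ¬ l ≡ b p [MOD p] then β k l else 0) =
          if k ∈ Qs then (if l ∈ Qs then
            (-(1 / (12 * μ ^ 2)) - (if close k l then 1 / (8 * π) else 0)) else 0) else 0 := by
        intro k l
        simp only [hβ]
        have hkQ : k ∈ Qs ↔ (k ∈ Q ∧ ∀ p ∈ P, ¬ k ≡ b p [MOD p]) := by rw [hQs, mem_filter]
        have hlQ : l ∈ Qs ↔ (l ∈ Q ∧ ∀ p ∈ P, ¬ l ≡ b p [MOD p]) := by rw [hQs, mem_filter]
        by_cases hk : k ∈ Qs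
        · by_cases hl : l ∈ Qs
          · rw [if_pos ⟨(hkQ.1 hk).2, (hlQ.1 hl).2⟩, if_pos hk, if_pos hl, if_pos ⟨(hkQ.1 hk).1, (hlQ.1 hl).1⟩]
          · rw [if_pos hk, if_neg hl]
            by_cases h1 : (∀ p ∈ P, ¬ k ≡ b p [MOD p]) ∧ ∀ p ∈ P, ¬ l ≡ b p [MOD p]
            · rw [if_pos h1, if_neg (fun h2 => hl (hlQ.2 ⟨h2.2, h1.2⟩))]
            · rw [if_neg h1]
        · rw [if_neg hk]
          by_cases h1 : (∀ p ∈ P, ¬ k ≡ b p [MOD p]) ∧ ∀ p ∈ P, ¬ l ≡ b p [MOD p]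
          · rw [if_pos h1, if_neg (fun h2 => hk (hkQ.2 ⟨h2.1, h1.1⟩))]
          · rw [if_neg h1]
      simp only [e1]
      have hQsR : Qs ⊆ R := (filter_subset _ _).trans hQR
      have e2 : ∀ k ∈ R, ∑ l ∈ R, (if k ∈ Qs then (if l ∈ Qs then
            (-(1 / (12 * μ ^ 2)) - (if close k l then 1 / (8 * π) else 0)) else 0) else 0) =
          if k ∈ Qs then ∑ l ∈ Qs, (-(1 / (12 * μ ^ 2)) - (if close k l then 1 / (8 * π) else 0)) else 0 := by
        intro k _
        split_ifs with hk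
        · rw [← sum_filter]
          apply sum_congr _ fun _ _ => rfl
          ext l
          rw [mem_filter]
          exact ⟨fun h => h.2, fun h => ⟨hQsR h, h⟩⟩
        · simp
      rw [sum_congr rfl e2, ← sum_filter]
      have e3 : R.filter (fun k => k ∈ Qs) = Qs := by
        ext l
        rw [mem_filter]
        exact ⟨fun h => h.2, fun h => ⟨hQsR h, h⟩⟩
      rw [e3]
      simp only [sum_sub_distrib, sum_const, nsmul_eq_mul]
      have e4 : ∑ k ∈ Qs, ∑ l ∈ Qs, (if close k l then 1 / (8 * π) else 0) = (Cs.card : ℝ) / (8 * π) := by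
        rw [hCs, card_filter, Nat.cast_sum, sum_product, sum_div]
        apply sum_congr rfl
        intro k _
        rw [sum_div]
        apply sum_congr rfl
        intro l _
        split_ifs <;> push_cast <;> ring
      rw [e4]
      ring
    rw [v1, v2]
    ring
  rw [hval] at hbv
  have hmain := hmean.trans hbv
  set Y : ℝ := (Qs.card : ℝ) / μ with hY
  have hY0 : 0 ≤ Y := by positivity
  have hYsq : (Qs.card : ℝ) ^ 2 / (12 * μ ^ 2) = Y ^ 2 / 12 := by
    rw [hY]; field_simp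
  rw [hYsq] at hmain
  have hz0 : 0 ≤ (Rs.card : ℝ) / (8 * ρ) := by positivity
  have hc0 : 0 ≤ (Cs.card : ℝ) / (8 * π) := by positivity
  have hquad : Y - Y ^ 2 / 12 ≤ 3 := by nlinarith [sq_nonneg (Y - 6)]
  have hys : 0 ≤ Y ^ 2 / 12 := by positivity
  refine ⟨?_, ?_, ?_⟩
  · have h1 : (Rs.card : ℝ) / (8 * ρ) ≤ 5 / 2 := by linarith
    rw [div_le_iff₀ (by positivity)] at h1
    linarith
  · have h1 : 1 / 2 ≤ Y := by linarith
    rw [hY, le_div_iff₀ hμ0] at h1
    linarith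
  · have h1 : (Cs.card : ℝ) / (8 * π) ≤ 5 / 2 := by linarith
    rw [div_le_iff₀ (by positivity)] at h1
    linarith

end Pool.Agent.TH915.UC
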