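import Pool.Agent.TH915.UC.Surv

/-! The classes modulo the primes up to `y`: few survivors, many of them primes of a given residue class, and
the primes among them are well spaced on average. -/

set_option autoImplicit false
set_option maxHeartbeats 4000000

namespace Pool.Agent.TH915.UC

open Finset Filter Pool.Agent.H318R2.Cr Pool.Agent.H398R2.RK

open scoped Classical

/-- growth facts -/
theorem ev_y (d : ℝ) (q : ℕ) (x₀ : ℝ) : ∀ᶠ y : ℕ in atTop, 100 ≤ Real.log y ∧ (Real.log y) ^ 8 ≤ y ∧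
    d ≤ Real.log y ∧ (q : ℝ) ^ 2 ≤ Real.log y ∧ x₀ ≤ (y : ℝ) ∧ 1 ≤ Real.log (Real.log y) ∧
    1 ≤ Real.log (Real.log (Real.log y)) ∧ 2 ≤ y := by
  have hc : Tendsto (fun y : ℕ => (y : ℝ)) atTop atTop := tendsto_natCast_atTop_atTop
  have hl := Real.tendsto_log_atTop.comp hc
  have hll := Real.tendsto_log_atTop.comp hl
  have hlll := Real.tendsto_log_atTop.comp hll
  have h8 : ∀ᶠ x : ℝ in atTop, (Real.log x) ^ 8 ≤ x := by
    have h := (Real.isLittleO_pow_log_id_atTop (n := 8)).def (show (0 : ℝ) < 1 by norm_num)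
    filter_upwards [h, eventually_ge_atTop (1 : ℝ)] with t ht h1
    rw [one_mul, Real.norm_of_nonneg (pow_nonneg (Real.log_nonneg h1) 8), id,
      Real.norm_of_nonneg (by linarith)] at ht
    exact ht
  filter_upwards [hl.eventually_ge_atTop 100, hc.eventually h8, hl.eventually_ge_atTop d,
    hl.eventually_ge_atTop ((q : ℝ) ^ 2), hc.eventually_ge_atTop x₀, hll.eventually_ge_atTop 1,
    hlll.eventually_ge_atTop 1, eventually_ge_atTop 2] with y h1 h2 h3 h4 h5 h6 h7 h9
  exact ⟨h1, h2, h3, h4, h5, h6, h7, h9⟩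

theorem usurv : ∃ C : ℝ, 1 ≤ C ∧ ∀ q : ℕ, 0 < q → ∀ a : ℕ, a.Coprime q → ∃ y₀ : ℕ, ∀ y : ℕ, y₀ ≤ y →
    ∀ (S : Finset ℕ) (ps : ℕ), (∀ s ∈ S, s.Prime ∧ 2 < s) → ∑ s ∈ S, (1 : ℝ) / s ≤ 12 / (Real.log y) ^ 2 →
    (ps = 1 ∨ (ps.Prime ∧ 2 < ps)) →
    ∀ H : ℕ, 100 * (q.totient : ℝ) * (y * Real.log y) ≤ H → (H : ℝ) ≤ y * (Real.log y) ^ 2 →
    ∀ D : ℝ, 1 ≤ D → D ≤ (Real.log y) ^ 3 →
    ∃ b : ℕ → ℕ, (∀ p : ℕ, (p : ℝ) ≤ (Real.log y) ^ 2 → b p = 0) ∧
      (∀ p : ℕ, p.Prime → p ≤ y → p ∉ S → p ≠ ps → b p < p) ∧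
      ∃ Sv Q : Finset ℕ,
        Sv = (range (H + 1)).filter (fun k => ∀ p : ℕ, p.Prime → p ≤ y → p ∉ S → p ≠ ps → ¬ k ≡ b p [MOD p]) ∧
        Q = Sv.filter (fun t => t.Prime ∧ y < t ∧ t ≡ a [MOD q]) ∧
        (Sv.card : ℝ) ≤ C * (H * (Real.log (Real.log y)) ^ 2 /
          ((Real.log y) ^ 2 * Real.log (Real.log (Real.log y)))) ∧
        H * (Real.log (Real.log y)) ^ 2 / ((Real.log y) ^ 2 * Real.log (Real.log (Real.log y))) ≤
          C * q.totient * Q.card ∧
        (((Q ×ˢ Q).filter (fun x => x.1 < x.2 ∧ (x.2 : ℝ) ≤ x.1 + H / D)).card : ℝ) ≤ C * (Q.card : ℝ) ^ 2 / D := by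
  obtain ⟨d₁, d₂, hd₁, hd₂, y₁, hframe⟩ := frame
  refine ⟨max 1 (max (800 * d₂) (max (24 / d₁) 337920)), le_max_left _ _, ?_⟩
  intro q hq a haq
  have hφ : (0 : ℝ) < q.totient := by exact_mod_cast Nat.totient_pos.2 hq
  have hφ1 : (1 : ℝ) ≤ q.totient := by exact_mod_cast Nat.totient_pos.2 hq
  obtain ⟨x₁, hx₁⟩ := eventually_atTop.1 (primes_ap_lower q a hq haq)
  obtain ⟨y₂, hy₂⟩ := eventually_atTop.1 (ev_y (1 / d₁) q x₁)
  refine ⟨max y₁ y₂, fun y hy S ps hS hSsum hps H hH1 hH2 D hD1 hD2 => ?_⟩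
  obtain ⟨hL100, hL8, hLd, hLq, hyx, hτ1, hτ2, hy2⟩ := hy₂ y ((le_max_right _ _).trans hy)
  set L := Real.log y with hL
  set τ := Real.log L with hτ
  have hL0 : 0 < L := by linarith
  have hy0 : (0 : ℝ) < y := by exact_mod_cast (by omega : 0 < y)
  have hyL : (y : ℝ) ≤ y * L := by nlinarith
  have hyLφ : (y : ℝ) * L ≤ 100 * (q.totient : ℝ) * (y * L) := by nlinarith [mul_pos hy0 hL0]
  have hyH' : (y : ℝ) ≤ H := by linarith
  have hyH : y ≤ H := by exact_mod_cast hyH'
  have hH0 : (0 : ℝ) < H := by linarith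
  obtain ⟨P, hP, hP1, hP2, hR⟩ := hframe y ((le_max_left _ _).trans hy) S ps hS hSsum hps H hyH hH2
  rw [← hL, ← hτ] at hP1 hP2
  rw [← hL] at hR
  set θ := ∏ p ∈ P, (1 - 1 / (p : ℝ)) with hθ
  have hlogH : Real.log H ≤ 3 * L := by
    have h9 : Real.log H ≤ Real.log (y * L ^ 2) := Real.log_le_log hH0 hH2
    rw [Real.log_mul hy0.ne' (by positivity), Real.log_pow, ← hL, ← hτ] at h9
    have h10 : τ ≤ L := by
      have := Real.log_le_sub_one_of_pos hL0
      linarith
    push_cast at h9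
    linarith
  have hlogHy : L ≤ Real.log H := Real.log_le_log hy0 hyH'
  set e := τ ^ 2 / (L * Real.log τ) with he
  have he0 : 0 < e := by
    have : 0 < Real.log τ := by linarith
    have : 0 < τ := by linarith
    positivity
  have hθ0 : 0 < θ := lt_of_lt_of_le (by positivity) hP1
  -- the sets
  set R := (range (H + 1)).filter (fun k => ∀ p : ℕ, p.Prime → p ≤ y → p ∉ S → p ≠ ps → p ∉ P → ¬ p ∣ k) with hRdef
  set Q0 := R.filter (fun t => t.Prime ∧ y < t ∧ t ≡ a [MOD q]) with hQ0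
  have hQ0eq : ∀ t, t ∈ Q0 ↔ (t ≤ H ∧ t.Prime ∧ y < t ∧ t ≡ a [MOD q]) := by
    intro t
    rw [hQ0, mem_filter, hRdef, mem_filter, mem_range]
    constructor
    · rintro ⟨⟨h1, _⟩, h2⟩; exact ⟨by omega, h2⟩
    · rintro ⟨h1, h2⟩
      refine ⟨⟨by omega, fun p hp hpy _ _ _ hd => ?_⟩, h2⟩
      have := (Nat.prime_dvd_prime_iff_eq hp h2.1).1 hd
      omega
  -- lower bound for the number of primes
  have hQcard : (H : ℝ) / (12 * q.totient * L) ≤ Q0.card := by
    have h1 := hx₁ H (hyx.trans hyH')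
    rw [Nat.floor_natCast] at h1
    have h2 : (Icc 1 H).filter (fun p => p.Prime ∧ p ≡ a [MOD q]) ⊆ Q0 ∪ Icc 1 y := by
      intro t ht
      rw [mem_filter, mem_Icc] at ht
      rw [mem_union, hQ0eq, mem_Icc]
      by_cases h3 : y < t
      · left; exact ⟨ht.1.2, ht.2.1, h3, ht.2.2⟩
      · right; omega
    have h3 : (((Icc 1 H).filter (fun p => p.Prime ∧ p ≡ a [MOD q])).card : ℝ) ≤ Q0.card + y := by
      have h4 := (card_le_card h2).trans (card_union_le _ _)
      rw [Nat.card_Icc, Nat.add_sub_cancel] at h4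
      exact_mod_cast h4
    have h4 : (H : ℝ) / (6 * q.totient * L) ≤ H / (2 * q.totient * Real.log H) := by
      apply div_le_div_of_nonneg_left hH0.le
      · have : 0 < Real.log H := by linarith
        positivity
      · nlinarith
    have h5 : (y : ℝ) ≤ H / (12 * q.totient * L) := by
      rw [le_div_iff₀ (by positivity)]
      nlinarith [mul_pos hy0 hL0]
    have h6 : (H : ℝ) / (6 * q.totient * L) = H / (12 * q.totient * L) + H / (12 * q.totient * L) := by
      field_simp; norm_num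
    linarith
  have hQ0pos : (0 : ℝ) < Q0.card := lt_of_lt_of_le (by positivity) hQcard
  set μ := θ * Q0.card with hμ
  have hμlow : d₁ * e * (H / (12 * q.totient * L)) ≤ μ := by
    rw [hμ]; gcongr
  have hμ1 : 1 ≤ μ := by
    refine le_trans ?_ hμlow
    have h1 : 8 * (y : ℝ) ≤ H / (12 * q.totient * L) := by
      rw [le_div_iff₀ (by positivity)]
      nlinarith [mul_pos hy0 hL0]
    have h2 : 1 / L ≤ e := by
      rw [he, div_le_div_iff₀ hL0 (by have : 0 < Real.log τ := by linarith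
                                      positivity)]
      have h3 : Real.log τ ≤ τ := by
        have := Real.log_le_sub_one_of_pos (show 0 < τ by linarith)
        linarith
      have h4 : Real.log τ ≤ τ ^ 2 := by nlinarith
      nlinarith
    have h3 : 1 ≤ d₁ * L := by
      rw [div_le_iff₀ hd₁] at hLd
      linarith
    have h4 : L ^ 2 ≤ y := by
      refine le_trans ?_ hL8
      exact pow_le_pow_right₀ (by linarith) (by norm_num)
    calc (1 : ℝ) ≤ d₁ * L := h3
      _ = d₁ * (1 / L) * L ^ 2 := by field_simp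
      _ ≤ d₁ * e * y := by gcongr
      _ ≤ d₁ * e * (H / (12 * q.totient * L)) := by
          apply mul_le_mul_of_nonneg_left _ (by positivity)
          linarith
  -- close pairs
  set close : ℕ → ℕ → Prop := fun k l => k < l ∧ (l : ℝ) ≤ k + H / D with hclosedef
  have hD0 : 0 < D := by linarith
  set g := ⌊(H : ℝ) / D⌋₊ with hg
  have hHD : 50 * (y : ℝ) / L ^ 2 ≤ H / D / 2 := by
    have h1 : 100 * (y * L) ≤ H := by nlinarith [mul_pos hy0 hL0]
    have h2 : (H : ℝ) / L ^ 3 ≤ H / D := div_le_div_of_nonneg_left hH0.le hD0 hD2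
    have h3 : 100 * (y * L) / L ^ 3 ≤ H / L ^ 3 := div_le_div_of_nonneg_right h1 (by positivity)
    have h4 : 100 * (y * L) / L ^ 3 = 2 * (50 * (y : ℝ) / L ^ 2) := by field_simp; norm_num
    linarith
  have hyL2 : 50 * L ^ 6 ≤ 50 * (y : ℝ) / L ^ 2 := by
    rw [le_div_iff₀ (by positivity)]
    calc 50 * L ^ 6 * L ^ 2 = 50 * L ^ 8 := by ring
      _ ≤ 50 * (y : ℝ) := by linarith
  have hL6 : 1 ≤ L ^ 6 := one_le_pow₀ (by linarith)
  have hgle : (g : ℝ) ≤ H / D := Nat.floor_le (by positivity)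
  have hgge : H / D / 2 ≤ (g : ℝ) := by
    have h1 : (H : ℝ) / D < g + 1 := Nat.lt_floor_add_one _
    linarith
  have hg50 : 50 * L ^ 6 ≤ g := by linarith
  have hLL6 : L ≤ L ^ 6 := by
    calc L = L ^ 1 := (pow_one _).symm
      _ ≤ L ^ 6 := pow_le_pow_right₀ (by linarith) (by norm_num)
  have hgq : q ^ 2 ≤ g := by
    have : ((q ^ 2 : ℕ) : ℝ) ≤ g := by push_cast; linarith
    exact_mod_cast this
  have hg4 : 4 ≤ g := by
    have : ((4 : ℕ) : ℝ) ≤ g := by push_cast; linarith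
    exact_mod_cast this
  have hlg : L / 2 ≤ Real.log g := by
    have h1 : (y : ℝ) ≤ (g : ℝ) ^ 2 := by
      have h2 : (y : ℝ) / L ^ 2 ≤ g := by
        have : 50 * (y : ℝ) / L ^ 2 = 50 * (y / L ^ 2) := by ring
        have h0 : 0 ≤ (y : ℝ) / L ^ 2 := by positivity
        linarith
      have h3 : L ^ 2 ≤ g := by
        have : L ^ 2 ≤ L ^ 6 := pow_le_pow_right₀ (by linarith) (by norm_num)
        linarith
      calc (y : ℝ) = (y / L ^ 2) * L ^ 2 := by field_simp
        _ ≤ g * g := by gcongr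
        _ = _ := by ring
    have h2 := Real.log_le_log hy0 h1
    rw [Real.log_pow, ← hL] at h2
    push_cast at h2
    linarith
  have hclosecard : (((Q0 ×ˢ Q0).filter (fun x => close x.1 x.2)).card : ℝ) ≤
      Q0.card * (2112 * Q0.card / D) := by
    have h1 : (Q0 ×ˢ Q0).filter (fun x => close x.1 x.2) ⊆
        Q0.biUnion (fun k => ((Ioc k (k + g)).filter (fun p => p.Prime ∧ p ≡ a [MOD q])).image (fun l => (k, l))) := by
      rintro ⟨k, l⟩ hx
      rw [mem_filter, mem_product] at hx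
      obtain ⟨⟨hk, hl⟩, hc1, hc2⟩ := hx
      rw [mem_biUnion]
      refine ⟨k, hk, ?_⟩
      rw [mem_image]
      refine ⟨l, ?_, rfl⟩
      have hl' := (hQ0eq l).1 hl
      rw [mem_filter, mem_Ioc]
      refine ⟨⟨hc1, ?_⟩, hl'.2.1, hl'.2.2.2⟩
      have h2 : ((l - k : ℕ) : ℝ) ≤ H / D := by
        rw [Nat.cast_sub hc1.le]
        simp only at hc2
        linarith
      have h3 := Nat.le_floor h2
      simp only at hc1
      omega
    have h2 : (((Q0 ×ˢ Q0).filter (fun x => close x.1 x.2)).card : ℝ) ≤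
        ∑ k ∈ Q0, (((Ioc k (k + g)).filter (fun p => p.Prime ∧ p ≡ a [MOD q])).card : ℝ) := by
      have h3 := (card_le_card h1).trans card_biUnion_le
      refine le_trans (Nat.cast_le.2 h3) ?_
      push_cast
      apply sum_le_sum
      intro k _
      exact_mod_cast card_image_le
    refine h2.trans ?_
    have h3 : ∀ k ∈ Q0, (((Ioc k (k + g)).filter (fun p => p.Prime ∧ p ≡ a [MOD q])).card : ℝ) ≤
        2112 * Q0.card / D := by
      intro k _
      refine (primes_interval q a k g hq hgq hg4).trans ?_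
      have hlg0 : 0 < Real.log g := by linarith
      calc 88 * (g : ℝ) / (q.totient * Real.log g) ≤ 88 * (H / D) / (q.totient * (L / 2)) := by gcongr
        _ = 2112 * (H / (12 * q.totient * L)) / D := by field_simp; norm_num
        _ ≤ 2112 * Q0.card / D := by gcongr
    refine (sum_le_sum h3).trans ?_
    rw [sum_const, nsmul_eq_mul]
  set ρ := θ * (40 * H / L) with hρ
  set π := 4224 * μ ^ 2 / D with hπ
  have hρ0 : 0 < ρ := by positivity
  have hμ0 : 0 < μ := by linarith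
  have hπ0 : 0 < π := by positivity
  have hP3 : ∀ p ∈ P, p.Prime ∧ 3 ≤ p := fun p hp => ⟨(hP p hp).1, (hP p hp).2.1⟩
  obtain ⟨b, hb, hb1, hb2, hb3⟩ := choose_b P (fun p hp => (hP p hp).1.pos) R Q0 (filter_subset _ _) close
    θ μ ρ π rfl rfl hμ1 hρ0 hπ0 hθ0 (by rw [hρ]; gcongr)
    (by
      intro k hk l hl hkl
      have hk' := (hQ0eq k).1 hk
      have hl' := (hQ0eq l).1 hl
      rcases Nat.lt_or_gt_of_ne hkl with h | h
      · exact pair_prod P hP3 k l H h hl'.1 L hL100 (fun p hp => (hP p hp).2.2.1) hlogH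
      · have h1 := pair_prod P hP3 l k H h hk'.1 L hL100 (fun p hp => (hP p hp).2.2.1) hlogH
        refine le_trans (le_of_eq ?_) h1
        apply prod_congr rfl
        intro p _
        unfold wp
        by_cases h2 : k ≡ l [MOD p]
        · rw [if_pos h2, if_pos h2.symm]
        · rw [if_neg h2, if_neg (fun h3 => h2 h3.symm)])
    (by
      intro k hk
      simp only [hclosedef] at hk
      omega)
    (by
      have h1 : 2 * θ ^ 2 * (Q0.card * (2112 * Q0.card / D)) = π := by rw [hπ, hμ]; ring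
      rw [← h1]
      refine le_trans (le_of_eq ?_) (mul_le_mul_of_nonneg_left hclosecard (show (0 : ℝ) ≤ 2 * θ ^ 2 by positivity))
      congr!)
  refine ⟨fun p => if p ∈ P then b p else 0, ?_, ?_, R.filter (fun k => ∀ p ∈ P, ¬ k ≡ b p [MOD p]),
    Q0.filter (fun k => ∀ p ∈ P, ¬ k ≡ b p [MOD p]), ?_, ?_, ?_, ?_, ?_⟩
  · intro p hp
    have h7 : p ∉ P := by
      intro h8
      have h9 := (hP p h8).2.2.1
      exact absurd hp (not_le.2 h9)
    simp only [h7, if_false]
  · intro p hp hpy hpS hpps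
    by_cases hpP : p ∈ P
    · simp only [hpP, if_true]
      exact hb p hpP
    · simp only [hpP, if_false]
      exact hp.pos
  · ext k
    rw [mem_filter, hRdef, mem_filter, mem_filter]
    constructor
    · rintro ⟨⟨h1, h2⟩, h3⟩
      refine ⟨h1, fun p hp hpy hpS hpps => ?_⟩
      by_cases hpP : p ∈ P
      · beta_reduce
        rw [if_pos hpP]; exact h3 p hpP
      · beta_reduce
        rw [if_neg hpP]
        intro h4
        exact h2 p hp hpy hpS hpps hpP (Nat.modEq_zero_iff_dvd.1 h4)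
    · rintro ⟨h1, h2⟩
      refine ⟨⟨h1, fun p hp hpy hpS hpps hpP hd => ?_⟩, fun p hpP => ?_⟩
      · have := h2 p hp hpy hpS hpps
        beta_reduce at this
        rw [if_neg hpP] at this
        exact this (Nat.modEq_zero_iff_dvd.2 hd)
      · obtain ⟨g1, g2, g3, g4, g5, g6⟩ := hP p hpP
        have := h2 p g1 g4 g5 g6
        beta_reduce at this
        rwa [if_pos hpP] at this
  · ext k
    have e1 : k ∈ Q0 ↔ (k ∈ R ∧ k.Prime ∧ y < k ∧ k ≡ a [MOD q]) := by rw [hQ0, mem_filter]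
    have e2 : k ∈ Q0.filter (fun k => ∀ p ∈ P, ¬ k ≡ b p [MOD p]) ↔ (k ∈ Q0 ∧ ∀ p ∈ P, ¬ k ≡ b p [MOD p]) :=
      mem_filter
    have e3 : k ∈ R.filter (fun k => ∀ p ∈ P, ¬ k ≡ b p [MOD p]) ↔ (k ∈ R ∧ ∀ p ∈ P, ¬ k ≡ b p [MOD p]) :=
      mem_filter
    have e4 : k ∈ (R.filter (fun k => ∀ p ∈ P, ¬ k ≡ b p [MOD p])).filter
        (fun t => t.Prime ∧ y < t ∧ t ≡ a [MOD q]) ↔ (k ∈ R.filter (fun k => ∀ p ∈ P, ¬ k ≡ b p [MOD p]) ∧
          k.Prime ∧ y < k ∧ k ≡ a [MOD q]) := mem_filter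
    rw [e4, e3, e2, e1]
    constructor
    · rintro ⟨⟨h1, h2⟩, h3⟩; exact ⟨⟨h1, h3⟩, h2⟩
    · rintro ⟨⟨h1, h2⟩, h3⟩; exact ⟨⟨h1, h3⟩, h2⟩
  · refine hb1.trans ?_
    calc 20 * ρ ≤ 20 * ((d₂ * e) * (40 * H / L)) := by rw [hρ]; gcongr
      _ = (800 * d₂) * (H * τ ^ 2 / (L ^ 2 * Real.log τ)) := by
          rw [he]
          have : Real.log τ ≠ 0 := by linarith
          field_simp
          norm_num
      _ ≤ _ := by
          apply mul_le_mul_of_nonneg_right
          · exact (le_max_left _ _).trans (le_max_right _ _)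
          · have : 0 < Real.log τ := by linarith
            positivity
  · have h1 : (24 / d₁) ≤ max 1 (max (800 * d₂) (max (24 / d₁) 337920)) :=
      ((le_max_left _ _).trans (le_max_right _ _)).trans (le_max_right _ _)
    set Qs := Q0.filter (fun k => ∀ p ∈ P, ¬ k ≡ b p [MOD p]) with hQs
    calc H * τ ^ 2 / (L ^ 2 * Real.log τ) = (24 / d₁) * q.totient * ((d₁ * e * (H / (12 * q.totient * L))) / 2) := by
          rw [he]
          have : Real.log τ ≠ 0 := by linarith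
          field_simp
          norm_num
      _ ≤ (24 / d₁) * q.totient * (μ / 2) := by gcongr
      _ ≤ (24 / d₁) * q.totient * Qs.card := by gcongr
      _ ≤ _ := by gcongr
  · have h1 : (337920 : ℝ) ≤ max 1 (max (800 * d₂) (max (24 / d₁) 337920)) :=
      ((le_max_right _ _).trans (le_max_right _ _)).trans (le_max_right _ _)
    set Qs := Q0.filter (fun k => ∀ p ∈ P, ¬ k ≡ b p [MOD p]) with hQs
    have h2 : μ ≤ 2 * Qs.card := by linarith
    have h3 : 20 * π ≤ max 1 (max (800 * d₂) (max (24 / d₁) 337920)) * (Qs.card : ℝ) ^ 2 / D := by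
      calc 20 * π = 84480 * μ ^ 2 / D := by rw [hπ]; ring
        _ ≤ 84480 * (2 * Qs.card) ^ 2 / D := by gcongr
        _ = 337920 * (Qs.card : ℝ) ^ 2 / D := by ring
        _ ≤ max 1 (max (800 * d₂) (max (24 / d₁) 337920)) * (Qs.card : ℝ) ^ 2 / D := by gcongr
    refine le_trans (le_of_eq ?_) (hb3.trans h3)
    congr!

end Pool.Agent.TH915.UC
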